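import Mathlib

/-!
# Triad-balanced families of latin squares: definitions
-/

namespace Pool.Agent.Lib.MP_0f2167_co

universe u

/-- `L` is a latin square of order `n` on the symbol set `S`: an `n × n` array in which every
symbol appears exactly once in each row and exactly once in each column. -/
def IsLatinSquare {S : Type u} {n : ℕ} (L : Fin n → Fin n → S) : Prop :=
  (∀ i, Function.Bijective (fun j => L i j)) ∧ (∀ j, Function.Bijective (fun i => L i j))

/-- The triple `(a, b, c)` is read, from left to right, in the three consecutive cells
`j, j + 1, j + 2` of row `i` of `L` (columns are not read cyclically). -/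
def OccursAt {S : Type u} {n : ℕ} (L : Fin n → Fin n → S) (i j : Fin n) (a b c : S) : Prop :=
  ∃ j₁ j₂ : Fin n, (j₁ : ℕ) = (j : ℕ) + 1 ∧ (j₂ : ℕ) = (j : ℕ) + 2 ∧
    L i j = a ∧ L i j₁ = b ∧ L i j₂ = c

/-- The family `L` of `n - 1` arrays of order `n` on `S` is triad-balanced: all its members are
latin squares, and every ordered triple of pairwise distinct symbols occurs in three consecutive
cells of a row of exactly one member, and exactly once there. -/
def TriadBalanced {S : Type u} {n : ℕ} (L : Fin (n - 1) → Fin n → Fin n → S) : Prop :=
  (∀ k, IsLatinSquare (L k)) ∧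
    ∀ a b c : S, a ≠ b → b ≠ c → a ≠ c →
      ∃! t : Fin (n - 1) × Fin n × Fin n, OccursAt (L t.1) t.2.1 t.2.2 a b c

end Pool.Agent.Lib.MP_0f2167_co
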