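import Mathlib
import Pool.Agent.Lib.MP_0f2167_co.Defs

/-!
# Sets of `n - 1` latin squares balanced for ordered triples in rows

For every `n ≥ 3` there is a triad-balanced family of `n - 1` latin squares of order `n`.

Idea of the proof. Let `τ` be a Hamiltonian cycle of the complete graph on the symbols. The two
zigzag squares `(u, j) ↦ τ (u ± z j)` with `z = 0, 1, -1, 2, -2, ...` are latin squares whose
rows contain exactly the triads `(a, v, c)` with `{a, c}` an edge of `τ`. For odd `n` the complete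
graph is decomposed into Hamiltonian cycles (Walecki), which settles odd orders. For `n = 2 m`,
`m ≥ 4`, three explicit latin squares developed over `ZMod 2 × ZMod m` contain exactly the triads
`(a, v, c)` with `{a, c}` an edge of the bipartite cubic graph with differences `1, 2, 3`, and the
complement of this cubic graph has an explicit decomposition into Hamiltonian cycles. Orders `4`
and `6` are handled by explicit base rows.
-/

namespace Pool.Agent.Lib.MP_0f2167_co

universe u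

/-! ### Auxiliary notions -/

/-- `k` latin squares on `V` (rows indexed by `V`, columns by `j < n`) covering all triads
with property `T`. -/
def Covers (V : Type) (n k : ℕ) (T : V → V → V → Prop) : Prop :=
  ∃ L : Fin k → V → ℕ → V,
    (∀ q v i j, i < n → j < n → L q v i = L q v j → i = j) ∧
    (∀ q j, j < n → Function.Injective (fun v => L q v j)) ∧
    ∀ a b c, a ≠ b → b ≠ c → a ≠ c → T a b c →
      ∃ q v j, j + 2 < n ∧ L q v j = a ∧ L q v (j + 1) = b ∧ L q v (j + 2) = c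

lemma Covers.mono {V : Type} {n k : ℕ} {T T' : V → V → V → Prop} (h : Covers V n k T)
    (hT : ∀ a b c, a ≠ b → b ≠ c → a ≠ c → T' a b c → T a b c) : Covers V n k T' := by
  obtain ⟨L, h1, h2, h3⟩ := h
  exact ⟨L, h1, h2, fun a b c hab hbc hac h => h3 a b c hab hbc hac (hT a b c hab hbc hac h)⟩

lemma Covers.zero {V : Type} {n : ℕ} : Covers V n 0 (fun _ _ _ => False) :=
  ⟨fun q => q.elim0, fun q => q.elim0, fun q => q.elim0, fun _ _ _ _ _ _ h => h.elim⟩

lemma Covers.add {V : Type} {n k k' : ℕ} {T T' : V → V → V → Prop} (h : Covers V n k T)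
    (h' : Covers V n k' T') : Covers V n (k + k') (fun a b c => T a b c ∨ T' a b c) := by
  obtain ⟨L, h1, h2, h3⟩ := h
  obtain ⟨L', h1', h2', h3'⟩ := h'
  refine ⟨Fin.append L L', ?_, ?_, ?_⟩
  · intro q
    refine Fin.addCases (fun q => ?_) (fun q => ?_) q
    · rw [Fin.append_left]; exact h1 q
    · rw [Fin.append_right]; exact h1' q
  · intro q
    refine Fin.addCases (fun q => ?_) (fun q => ?_) q
    · rw [Fin.append_left]; exact h2 q
    · rw [Fin.append_right]; exact h2' q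
  · rintro a b c hab hbc hac (h | h)
    · obtain ⟨q, v, j, hj⟩ := h3 a b c hab hbc hac h
      exact ⟨Fin.castAdd k' q, v, j, by rw [Fin.append_left]; exact hj⟩
    · obtain ⟨q, v, j, hj⟩ := h3' a b c hab hbc hac h
      exact ⟨Fin.natAdd k q, v, j, by rw [Fin.append_right]; exact hj⟩

lemma Covers.iUnion {V : Type} {n k : ℕ} (N : ℕ) {T : ℕ → V → V → V → Prop}
    (h : ∀ i < N, Covers V n k (T i)) :
    Covers V n (N * k) (fun a b c => ∃ i < N, T i a b c) := by
  induction N with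
  | zero =>
    rw [Nat.zero_mul]
    refine Covers.zero.mono ?_
    rintro a b c - - - ⟨i, hi, -⟩
    omega
  | succ N ih =>
    rw [Nat.succ_mul]
    refine ((ih fun i hi => h i (by omega)).add (h N (by omega))).mono ?_
    rintro a b c - - - ⟨i, hi, hT⟩
    rcases Nat.lt_succ_iff_lt_or_eq.1 hi with hi | rfl
    · exact Or.inl ⟨i, hi, hT⟩
    · exact Or.inr hT

/-- From a covering family on any `V` of cardinality `n` to a triad-balanced family. -/
lemma balanced_of_covers {V : Type} [Fintype V] {n : ℕ} (hV : Fintype.card V = n)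
    (h : Covers V n (n - 1) (fun _ _ _ => True)) {S : Type u} [Fintype S]
    (hS : Fintype.card S = n) : ∃ L : Fin (n - 1) → Fin n → Fin n → S, TriadBalanced L := by
  classical
  obtain ⟨L, h1, h2, h3⟩ := h
  have e : Fin n ≃ V := (Fintype.equivFinOfCardEq hV).symm
  have f : V ≃ S := Fintype.equivOfCardEq (by rw [hV, hS])
  let M : Fin (n - 1) → Fin n → Fin n → S := fun k i j => f (L k (e i) j)
  have hcard : Fintype.card (Fin n) = Fintype.card S := by simp [hS]
  have hrow : ∀ k i, Function.Injective (fun j => M k i j) := by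
    intro k i j j' hjj
    have := f.injective hjj
    exact Fin.ext (h1 k (e i) j j' j.2 j'.2 this)
  have hcol : ∀ k j, Function.Injective (fun i => M k i j) := by
    intro k j i i' hii
    have := f.injective hii
    exact e.injective (h2 k j j.2 this)
  -- occurrence at least once
  have hocc : ∀ a b c : S, a ≠ b → b ≠ c → a ≠ c → ∃ (k : Fin (n - 1)) (i : Fin n) (j : ℕ)
      (hj : j + 2 < n), M k i ⟨j, by omega⟩ = a ∧ M k i ⟨j + 1, by omega⟩ = b ∧
        M k i ⟨j + 2, hj⟩ = c := by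
    intro a b c hab hbc hac
    obtain ⟨q, v, j, hj, ha, hb, hc⟩ := h3 (f.symm a) (f.symm b) (f.symm c)
      (fun h => hab (f.symm.injective h)) (fun h => hbc (f.symm.injective h))
      (fun h => hac (f.symm.injective h)) trivial
    refine ⟨q, e.symm v, j, hj, ?_, ?_, ?_⟩
    · simp [M, ha]
    · simp [M, hb]
    · simp [M, hc]
  -- the map from positions to triads
  let Φ : Fin (n - 1) × Fin n × Fin (n - 2) → (Fin 3 ↪ S) := fun t =>
    ⟨fun r => M t.1 t.2.1 ⟨t.2.2 + r, by have := t.2.2.2; have := r.2; omega⟩, by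
      intro r r' hr
      have := hrow t.1 t.2.1 hr
      simp only [Fin.mk.injEq] at this
      exact Fin.ext (by omega)⟩
  have hsurj : Function.Surjective Φ := by
    intro t
    obtain ⟨k, i, j, hj, ha, hb, hc⟩ := hocc (t 0) (t 1) (t 2)
      (fun h => by simpa using t.injective h) (fun h => by simpa using t.injective h)
      (fun h => by simpa using t.injective h)
    refine ⟨(k, i, ⟨j, by omega⟩), ?_⟩
    ext r
    fin_cases r
    · exact ha
    · exact hb
    · exact hc
  have hbij : Function.Bijective Φ := by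
    rw [Fintype.bijective_iff_surjective_and_card]
    refine ⟨hsurj, ?_⟩
    rw [Fintype.card_embedding_eq, hS]
    simp only [Fintype.card_prod, Fintype.card_fin, Nat.descFactorial]
    simp only [Nat.sub_zero, mul_one]
    ring
  refine ⟨M, ⟨fun k => ⟨fun i => ?_, fun j => ?_⟩, ?_⟩⟩
  · exact (Fintype.bijective_iff_injective_and_card _).2 ⟨hrow k i, hcard⟩
  · exact (Fintype.bijective_iff_injective_and_card _).2 ⟨hcol k j, hcard⟩
  · intro a b c hab hbc hac
    obtain ⟨k, i, j, hj, ha, hb, hc⟩ := hocc a b c hab hbc hac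
    refine ⟨(k, i, ⟨j, by omega⟩), ⟨⟨j + 1, by omega⟩, ⟨j + 2, hj⟩, rfl, rfl, ha, hb, hc⟩, ?_⟩
    rintro ⟨k', i', j'⟩ ⟨j₁, j₂, e₁, e₂, ha', hb', hc'⟩
    have hj' : (j' : ℕ) + 2 < n := by have := j₂.2; simp only at e₂; omega
    have key : Φ (k', i', ⟨j', by omega⟩) = Φ (k, i, ⟨j, by omega⟩) := by
      ext r
      fin_cases r
      · exact (ha'.trans ha.symm)
      · refine Eq.trans ?_ (hb'.trans hb.symm)
        show M k' i' _ = M k' i' _
        congr 1
        exact Fin.ext e₁.symm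
      · refine Eq.trans ?_ (hc'.trans hc.symm)
        show M k' i' _ = M k' i' _
        congr 1
        exact Fin.ext e₂.symm
    have := hbij.1 key
    simp only [Prod.mk.injEq, Fin.mk.injEq] at this
    obtain ⟨r1, r2, r3⟩ := this
    subst r1 r2
    simp only [Prod.mk.injEq, true_and]
    exact Fin.ext r3


/-! ### The zigzag `0, 1, -1, 2, -2, ...` -/

/-- the zigzag `0, 1, -1, 2, -2, ...` -/
def zz (j : ℕ) : ℤ := if j % 2 = 0 then -((j / 2 : ℕ) : ℤ) else ((j / 2 + 1 : ℕ) : ℤ)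

lemma zz_even (k : ℕ) : zz (2 * k) = -(k : ℤ) := by
  have h1 : 2 * k % 2 = 0 := by omega
  have h2 : 2 * k / 2 = k := by omega
  rw [zz, if_pos h1, h2]

lemma zz_odd (k : ℕ) : zz (2 * k + 1) = (k : ℤ) + 1 := by
  have h1 : ¬ (2 * k + 1) % 2 = 0 := by omega
  have h2 : (2 * k + 1) / 2 = k := by omega
  rw [zz, if_neg h1, h2]
  push_cast
  rfl

lemma zz_inj {n : ℕ} [NeZero n] {i j : ℕ} (hi : i < n) (hj : j < n)
    (h : ((zz i : ℤ) : ZMod n) = ((zz j : ℤ) : ZMod n)) : i = j := by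
  rw [ZMod.intCast_eq_intCast_iff_dvd_sub] at h
  obtain ⟨k, hk⟩ := h
  have hk0 : k = 0 := by
    by_contra hne
    have hb : |zz j - zz i| < n := by
      rcases Nat.even_or_odd' i with ⟨a, rfl | rfl⟩ <;> rcases Nat.even_or_odd' j with ⟨b, rfl | rfl⟩ <;>
        simp only [zz_even, zz_odd] <;> rw [abs_lt] <;> constructor <;> omega
    rw [hk, abs_mul] at hb
    have h1 : (1 : ℤ) ≤ |k| := Int.one_le_abs hne
    have h2 : |(n : ℤ)| = n := abs_of_nonneg (by positivity)
    rw [h2] at hb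
    nlinarith
  rw [hk0, mul_zero] at hk
  rcases Nat.even_or_odd' i with ⟨a, rfl | rfl⟩ <;> rcases Nat.even_or_odd' j with ⟨b, rfl | rfl⟩ <;>
    simp only [zz_even, zz_odd] at hk <;> omega

/-- Adjacent values of the zigzag modulo `M` : all pairs with sum `0` or `1`. -/
lemma zz_adj {M : ℕ} [NeZero M] (t t' : ZMod M) (hne : t ≠ t') (h : t + t' = 0 ∨ t + t' = 1) :
    ∃ j, j + 1 < M ∧ ((t = ((zz j : ℤ) : ZMod M) ∧ t' = ((zz (j + 1) : ℤ) : ZMod M)) ∨
      (t' = ((zz j : ℤ) : ZMod M) ∧ t = ((zz (j + 1) : ℤ) : ZMod M))) := by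
  have hval : ((t.val : ℕ) : ZMod M) = t := ZMod.natCast_zmod_val t
  have hlt := ZMod.val_lt t
  have hM : ((M : ℕ) : ZMod M) = 0 := ZMod.natCast_self M
  obtain ⟨r, hr⟩ : ∃ r, t.val = r := ⟨_, rfl⟩
  rw [hr] at hval hlt
  rcases h with h | h
  · have ht' : t' = -t := by rw [eq_neg_iff_add_eq_zero, add_comm]; exact h
    have hr0 : r ≠ 0 := by
      rintro rfl
      apply hne
      rw [ht', ← hval]; simp
    have hMr : 2 * r ≠ M := by
      intro h2
      apply hne
      rw [ht', eq_neg_iff_add_eq_zero, ← hval]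
      rw [← hM, ← h2]; push_cast; ring
    by_cases hc : 2 * r < M
    · refine ⟨2 * r - 1, by omega, Or.inl ⟨?_, ?_⟩⟩
      · have e1 : 2 * r - 1 = 2 * (r - 1) + 1 := by omega
        rw [e1, zz_odd]
        have e2 : ((r - 1 : ℕ) : ℤ) + 1 = (r : ℤ) := by omega
        rw [e2]; simp [hval]
      · have e1 : 2 * r - 1 + 1 = 2 * r := by omega
        rw [e1, zz_even, ht']; simp [hval]
    · have hq : ((M - r : ℕ) : ZMod M) = t' := by
        rw [Nat.cast_sub hlt.le, hM, ht', hval]; ring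
      obtain ⟨q, hq'⟩ : ∃ q, M - r = q := ⟨_, rfl⟩
      rw [hq'] at hq
      refine ⟨2 * q - 1, by omega, Or.inr ⟨?_, ?_⟩⟩
      · have e1 : 2 * q - 1 = 2 * (q - 1) + 1 := by omega
        rw [e1, zz_odd]
        have e2 : ((q - 1 : ℕ) : ℤ) + 1 = (q : ℤ) := by omega
        rw [e2]; simp [hq]
      · have e1 : 2 * q - 1 + 1 = 2 * q := by omega
        rw [e1, zz_even]
        have : t = -t' := by rw [ht']; ring
        rw [this]; simp [hq]
  · have ht' : t' = 1 - t := by rw [← h]; ring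
    have hM1 : 2 * r ≠ M + 1 := by
      intro h2
      apply hne
      have h3 : ((2 * r : ℕ) : ZMod M) = ((M + 1 : ℕ) : ZMod M) := by rw [h2]
      push_cast at h3
      rw [hM, hval] at h3
      rw [ht']
      linear_combination h3
    by_cases hc : r ≠ 0 ∧ 2 * r ≤ M
    · refine ⟨2 * (r - 1), by omega, Or.inr ⟨?_, ?_⟩⟩
      · rw [zz_even, ht', ← hval]
        obtain ⟨s, rfl⟩ : ∃ s, r = s + 1 := ⟨r - 1, by omega⟩
        simp
      · rw [zz_odd]
        have e2 : ((r - 1 : ℕ) : ℤ) + 1 = (r : ℤ) := by omega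
        rw [e2]; simp [hval]
    · by_cases hr0 : r = 0
      · subst hr0
        have ht0 : t = 0 := by rw [← hval]; simp
        have hM2 : M ≠ 1 := by
          rintro rfl
          apply hne
          exact Subsingleton.elim _ _
        have hM0 : M ≠ 0 := NeZero.ne M
        refine ⟨2 * 0, by omega, Or.inl ⟨?_, ?_⟩⟩
        · rw [zz_even, ht0]; simp
        · rw [zz_odd, ht', ht0]; simp
      · have hq : ((M - r : ℕ) : ZMod M) = -t := by
          rw [Nat.cast_sub hlt.le, hM, hval]; ring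
        obtain ⟨q, hq'⟩ : ∃ q, M - r = q := ⟨_, rfl⟩
        rw [hq'] at hq
        refine ⟨2 * q, by omega, Or.inl ⟨?_, ?_⟩⟩
        · rw [zz_even]; push_cast; rw [hq]; ring
        · rw [zz_odd, ht']; push_cast; rw [hq]; ring

/-- The two latin squares attached to a Hamiltonian cycle. -/
lemma covers_cycle {V : Type} {n : ℕ} [NeZero n] (F : ZMod n ≃ V) :
    Covers V n 2 (fun a _ c => ∃ u, (a = F u ∧ c = F (u + 1)) ∨ (a = F (u + 1) ∧ c = F u)) := by
  refine ⟨fun q v j => if q = 0 then F (F.symm v + ((zz j : ℤ) : ZMod n))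
    else F (F.symm v - ((zz j : ℤ) : ZMod n)), ?_, ?_, ?_⟩
  · intro q v i j hi hj h
    by_cases hq : q = 0
    · simp only [hq, if_true] at h
      exact zz_inj hi hj (add_left_cancel (F.injective h))
    · simp only [hq, if_false] at h
      exact zz_inj hi hj (sub_right_injective (F.injective h))
  · intro q j hj v v' h
    by_cases hq : q = 0
    · simp only [hq, if_true] at h
      exact F.symm.injective (add_right_cancel (F.injective h))
    · simp only [hq, if_false] at h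
      exact F.symm.injective (sub_left_injective (F.injective h))
  · intro a b c hab hbc hac h
    obtain ⟨v, rfl⟩ := F.surjective b
    have hM : ((n : ℕ) : ZMod n) = 0 := ZMod.natCast_self n
    -- a general statement for both orientations
    have gen : ∀ (w e : ZMod n) (δ : ℕ), v = w + e * δ → (δ : ℕ) + 1 < n → 1 ≤ δ →
        (e = 1 ∨ e = -1) → ∃ (q : Fin 2) (x : V) (j : ℕ), j + 2 < n ∧
        (if q = 0 then F (F.symm x + ((zz j : ℤ) : ZMod n))
          else F (F.symm x - ((zz j : ℤ) : ZMod n))) = F w ∧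
        (if q = 0 then F (F.symm x + ((zz (j + 1) : ℤ) : ZMod n))
          else F (F.symm x - ((zz (j + 1) : ℤ) : ZMod n))) = F v ∧
        (if q = 0 then F (F.symm x + ((zz (j + 2) : ℤ) : ZMod n))
          else F (F.symm x - ((zz (j + 2) : ℤ) : ZMod n))) = F (w - e) := by
      intro w e δ hv hδ hδ1 he
      obtain ⟨j, rfl⟩ : ∃ j, δ = j + 1 := ⟨δ - 1, by omega⟩
      rcases Nat.even_or_odd' j with ⟨k, rfl | rfl⟩
      · -- j = 2k
        rcases he with rfl | rfl
        · refine ⟨0, F (w + k), 2 * k, by omega, ?_, ?_, ?_⟩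
          · simp [zz_even]
          · rw [zz_odd, hv]; simp; ring_nf
          · rw [show 2 * k + 2 = 2 * (k + 1) by ring, zz_even]; simp; ring_nf
        · refine ⟨1, F (w - k), 2 * k, by omega, ?_, ?_, ?_⟩
          · simp [zz_even]
          · rw [zz_odd, hv]; simp; ring_nf
          · rw [show 2 * k + 2 = 2 * (k + 1) by ring, zz_even]; simp; ring_nf
      · rcases he with rfl | rfl
        · refine ⟨1, F (w + (k + 1)), 2 * k + 1, by omega, ?_, ?_, ?_⟩
          · simp [zz_odd]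
          · rw [show 2 * k + 1 + 1 = 2 * (k + 1) by ring, zz_even, hv]; simp; ring_nf
          · rw [show 2 * k + 1 + 2 = 2 * (k + 1) + 1 by ring, zz_odd]; simp; ring_nf
        · refine ⟨0, F (w - (k + 1)), 2 * k + 1, by omega, ?_, ?_, ?_⟩
          · simp [zz_odd]
          · rw [show 2 * k + 1 + 1 = 2 * (k + 1) by ring, zz_even, hv]; simp; ring_nf
          · rw [show 2 * k + 1 + 2 = 2 * (k + 1) + 1 by ring, zz_odd]; simp; ring_nf
    obtain ⟨u, ⟨rfl, rfl⟩ | ⟨rfl, rfl⟩⟩ := h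
    · -- a = F u, c = F (u+1)
      have hvu : v ≠ u := fun h => hab (by rw [h])
      have hvu1 : v ≠ u + 1 := fun h => hbc (by rw [h])
      have h1 : ((u - v).val : ZMod n) = u - v := ZMod.natCast_zmod_val _
      have hlt := ZMod.val_lt (u - v)
      have h0 : (u - v).val ≠ 0 := by
        intro h0
        rw [ZMod.val_eq_zero, sub_eq_zero] at h0
        exact hvu h0.symm
      have h2 : (u - v).val + 1 ≠ n := by
        intro h2
        have h3 : (((u - v).val + 1 : ℕ) : ZMod n) = 0 := by rw [h2, hM]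
        push_cast at h3
        rw [h1] at h3
        apply hvu1
        linear_combination -h3
      obtain ⟨q, x, j, hj, p1, p2, p3⟩ := gen u (-1) (u - v).val (by rw [h1]; ring) (by omega)
        (by omega) (Or.inr rfl)
      exact ⟨q, x, j, hj, p1, p2, p3.trans (by congr 1; ring)⟩
    · have hvu : v ≠ u := fun h => hbc (by rw [h])
      have hvu1 : v ≠ u + 1 := fun h => hab (by rw [h])
      have h1 : ((v - (u + 1)).val : ZMod n) = v - (u + 1) := ZMod.natCast_zmod_val _
      have hlt := ZMod.val_lt (v - (u + 1))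
      have h0 : (v - (u + 1)).val ≠ 0 := by
        intro h0
        rw [ZMod.val_eq_zero, sub_eq_zero] at h0
        exact hvu1 h0
      have h2 : (v - (u + 1)).val + 1 ≠ n := by
        intro h2
        have h3 : (((v - (u + 1)).val + 1 : ℕ) : ZMod n) = 0 := by rw [h2, hM]
        push_cast at h3
        rw [h1] at h3
        apply hvu
        linear_combination h3
      obtain ⟨q, x, j, hj, p1, p2, p3⟩ := gen (u + 1) 1 (v - (u + 1)).val (by rw [h1]; ring)
        (by omega) (by omega) (Or.inl rfl)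
      exact ⟨q, x, j, hj, p1, p2, p3.trans (by congr 1; ring)⟩


/-- Adjacency on the closed walk `f 0, f 1, ..., f (n - 1), f 0`. -/
def Adj {V : Type} (n : ℕ) (f : ℕ → V) (a c : V) : Prop :=
  (∃ j, j + 1 < n ∧ ((a = f j ∧ c = f (j + 1)) ∨ (c = f j ∧ a = f (j + 1)))) ∨
    (a = f 0 ∧ c = f (n - 1)) ∨ (c = f 0 ∧ a = f (n - 1))

lemma Adj.symm {V : Type} {n : ℕ} {f : ℕ → V} {a c : V} (h : Adj n f a c) : Adj n f c a := by
  rcases h with ⟨j, hj, h | h⟩ | h | h
  · exact Or.inl ⟨j, hj, Or.inr h⟩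
  · exact Or.inl ⟨j, hj, Or.inl h⟩
  · exact Or.inr (Or.inr h)
  · exact Or.inr (Or.inl h)

/-- A Hamiltonian cycle given as a sequence. -/
lemma covers_seq {V : Type} [Fintype V] {n : ℕ} (hn : 3 ≤ n) (hV : Fintype.card V = n)
    (f : ℕ → V) (hf : ∀ x, ∃ j, j < n ∧ f j = x) :
    Covers V n 2 (fun a _ c => Adj n f a c) := by
  have : NeZero n := ⟨by omega⟩
  have hsurj : Function.Surjective (fun u : ZMod n => f u.val) := by
    intro x
    obtain ⟨j, hj, rfl⟩ := hf x
    exact ⟨(j : ZMod n), by simp only; rw [ZMod.val_natCast_of_lt hj]⟩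
  have hbij : Function.Bijective (fun u : ZMod n => f u.val) :=
    (Fintype.bijective_iff_surjective_and_card _).2 ⟨hsurj, by rw [ZMod.card, hV]⟩
  refine (covers_cycle (Equiv.ofBijective _ hbij)).mono ?_
  intro a b c hab hbc hac h
  simp only [Equiv.ofBijective_apply]
  rcases h with ⟨j, hj, h⟩ | h
  · have e1 : ((j : ℕ) : ZMod n).val = j := ZMod.val_natCast_of_lt (by omega)
    have e2 : (((j : ℕ) : ZMod n) + 1).val = j + 1 := by
      have : ((j : ℕ) : ZMod n) + 1 = ((j + 1 : ℕ) : ZMod n) := by push_cast; rfl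
      rw [this]
      exact ZMod.val_natCast_of_lt hj
    refine ⟨(j : ZMod n), ?_⟩
    rw [e1, e2]
    rcases h with ⟨h, h'⟩ | ⟨h, h'⟩
    · exact Or.inl ⟨h, h'⟩
    · exact Or.inr ⟨h', h⟩
  · have e1 : ((n - 1 : ℕ) : ZMod n).val = n - 1 := ZMod.val_natCast_of_lt (by omega)
    have e2 : (((n - 1 : ℕ) : ZMod n) + 1).val = 0 := by
      have : ((n - 1 : ℕ) : ZMod n) + 1 = ((n - 1 + 1 : ℕ) : ZMod n) := by push_cast; rfl
      rw [this, show n - 1 + 1 = n by omega, ZMod.natCast_self, ZMod.val_zero]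
    refine ⟨((n - 1 : ℕ) : ZMod n), ?_⟩
    rw [e1, e2]
    rcases h with ⟨h, h'⟩ | ⟨h, h'⟩
    · exact Or.inr ⟨h, h'⟩
    · exact Or.inl ⟨h', h⟩

/-! ### Odd orders: Walecki's decomposition -/

lemma covers_odd (h : ℕ) (hh : 1 ≤ h) :
    Covers (Option (ZMod (2 * h))) (2 * h + 1) (2 * h) (fun _ _ _ => True) := by
  have : NeZero (2 * h) := ⟨by omega⟩
  have hM : ((2 * h : ℕ) : ZMod (2 * h)) = 0 := ZMod.natCast_self _
  have hcard : Fintype.card (Option (ZMod (2 * h))) = 2 * h + 1 := by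
    rw [Fintype.card_option, ZMod.card]
  let f : ℕ → ℕ → Option (ZMod (2 * h)) := fun i j =>
    if j = 0 then none else some ((i : ZMod (2 * h)) + ((zz (j - 1) : ℤ) : ZMod (2 * h)))
  have hf0 : ∀ i, f i 0 = none := fun i => by simp [f]
  have hf1 : ∀ i j, f i (j + 1) = some ((i : ZMod (2 * h)) + ((zz j : ℤ) : ZMod (2 * h))) :=
    fun i j => by simp [f]
  have hsurj : ∀ i x, ∃ j, j < 2 * h + 1 ∧ f i j = x := by
    intro i x
    have hinj : Function.Injective (fun j : Fin (2 * h + 1) => f i j) := by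
      rintro ⟨j, hj⟩ ⟨j', hj'⟩ hjj
      simp only at hjj
      rcases j with _ | j <;> rcases j' with _ | j'
      · rfl
      · rw [hf0, hf1] at hjj; exact absurd hjj (by simp)
      · rw [hf0, hf1] at hjj; exact absurd hjj (by simp)
      · rw [hf1, hf1] at hjj
        have := zz_inj (n := 2 * h) (i := j) (j := j') (by omega) (by omega)
          (add_left_cancel (Option.some.inj hjj))
        exact Fin.ext (by simp [this])
    have hb := (Fintype.bijective_iff_injective_and_card _).2 ⟨hinj, by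
      rw [Fintype.card_fin, hcard]⟩
    obtain ⟨j, hj⟩ := hb.2 x
    exact ⟨j, j.2, hj⟩
  have hcov := Covers.iUnion (V := Option (ZMod (2 * h))) (n := 2 * h + 1) (k := 2) h
    (T := fun i a _ c => Adj (2 * h + 1) (f i) a c)
    (fun i _ => covers_seq (by omega) hcard (f i) (hsurj i))
  rw [mul_comm h 2] at hcov
  refine hcov.mono ?_
  intro a b c _ _ hac _
  -- edges at `none`
  have hnone : ∀ x, ∃ i < h, Adj (2 * h + 1) (f i) none (some x) := by
    intro x
    have hval : ((x.val : ℕ) : ZMod (2 * h)) = x := ZMod.natCast_zmod_val x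
    have hlt := ZMod.val_lt x
    by_cases hx : x.val < h
    · refine ⟨x.val, hx, Or.inl ⟨0, by omega, Or.inl ⟨(hf0 _).symm, ?_⟩⟩⟩
      rw [hf1, hval]
      simp [zz]
    · refine ⟨x.val - h, by omega, Or.inr (Or.inl ⟨(hf0 _).symm, ?_⟩)⟩
      have e : 2 * h + 1 - 1 = (2 * (h - 1) + 1) + 1 := by omega
      rw [e, hf1, zz_odd]
      congr 1
      have e2 : ((h - 1 : ℕ) : ℤ) + 1 = (h : ℤ) := by omega
      rw [e2, Nat.cast_sub (by omega), hval]
      push_cast
      ring
  rcases a with _ | x <;> rcases c with _ | y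
  · exact absurd rfl hac
  · exact hnone y
  · obtain ⟨i, hi, hA⟩ := hnone x
    exact ⟨i, hi, hA.symm⟩
  · have hxy : x ≠ y := fun h => hac (by rw [h])
    have hval : (((x + y).val : ℕ) : ZMod (2 * h)) = x + y := ZMod.natCast_zmod_val _
    have hlt := ZMod.val_lt (x + y)
    obtain ⟨i, hi⟩ := Nat.even_or_odd' (x + y).val
    have hsum : (x - i) + (y - i) = 0 ∨ (x - i) + (y - i) = 1 := by
      rcases hi with hi | hi
      · left; rw [hi] at hval; push_cast at hval; linear_combination -hval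
      · right; rw [hi] at hval; push_cast at hval; linear_combination -hval
    have hne : x - (i : ZMod (2 * h)) ≠ y - i := fun h => hxy (by simpa using h)
    obtain ⟨j, hj, hj'⟩ := zz_adj _ _ hne hsum
    refine ⟨i, by omega, Or.inl ⟨j + 1, by omega, ?_⟩⟩
    rw [hf1, hf1]
    rcases hj' with ⟨h1, h2⟩ | ⟨h1, h2⟩
    · left
      rw [← h1, ← h2]
      simp
    · right
      rw [← h1, ← h2]
      simp


/-! ### Three special sequences in `ZMod 2 × ZMod m` -/

/-- first sequence -/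
def seqA (m : ℕ) (j : ℕ) : ZMod 2 × ZMod m :=
  if j % 4 = 0 then (0, ((j / 4 : ℕ) : ZMod m))
  else if j % 4 = 1 then (1, -((j / 4 : ℕ) : ZMod m))
  else if j % 4 = 2 then (1, ((j / 4 : ℕ) : ZMod m) + 1)
  else (0, -(((j / 4 : ℕ) : ZMod m) + 1))

lemma seqA_0 (m k : ℕ) : seqA m (4 * k) = (0, (k : ZMod m)) := by
  have h1 : 4 * k % 4 = 0 := by omega
  have h2 : 4 * k / 4 = k := by omega
  simp [seqA, h1, h2]
lemma seqA_1 (m k : ℕ) : seqA m (4 * k + 1) = (1, -(k : ZMod m)) := by
  have h1 : (4 * k + 1) % 4 = 1 := by omega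
  have h2 : (4 * k + 1) / 4 = k := by omega
  simp [seqA, h1, h2]
lemma seqA_2 (m k : ℕ) : seqA m (4 * k + 2) = (1, (k : ZMod m) + 1) := by
  have h1 : (4 * k + 2) % 4 = 2 := by omega
  have h2 : (4 * k + 2) / 4 = k := by omega
  simp [seqA, h1, h2]
lemma seqA_3 (m k : ℕ) : seqA m (4 * k + 3) = (0, -((k : ZMod m) + 1)) := by
  have h1 : (4 * k + 3) % 4 = 3 := by omega
  have h2 : (4 * k + 3) / 4 = k := by omega
  simp [seqA, h1, h2]

/-- second sequence, odd case -/
def seqBo (m : ℕ) (j : ℕ) : ZMod 2 × ZMod m :=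
  if j % 4 = 0 then (0, ((j / 4 : ℕ) : ZMod m))
  else if j % 4 = 1 then (1, -(((j / 4 : ℕ) : ZMod m) + 1))
  else if j % 4 = 2 then (1, ((j / 4 : ℕ) : ZMod m))
  else (0, -(((j / 4 : ℕ) : ZMod m) + 1))

lemma seqBo_0 (m k : ℕ) : seqBo m (4 * k) = (0, (k : ZMod m)) := by
  have h1 : 4 * k % 4 = 0 := by omega
  have h2 : 4 * k / 4 = k := by omega
  simp [seqBo, h1, h2]
lemma seqBo_1 (m k : ℕ) : seqBo m (4 * k + 1) = (1, -((k : ZMod m) + 1)) := by
  have h1 : (4 * k + 1) % 4 = 1 := by omega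
  have h2 : (4 * k + 1) / 4 = k := by omega
  simp [seqBo, h1, h2]
lemma seqBo_2 (m k : ℕ) : seqBo m (4 * k + 2) = (1, (k : ZMod m)) := by
  have h1 : (4 * k + 2) % 4 = 2 := by omega
  have h2 : (4 * k + 2) / 4 = k := by omega
  simp [seqBo, h1, h2]
lemma seqBo_3 (m k : ℕ) : seqBo m (4 * k + 3) = (0, -((k : ZMod m) + 1)) := by
  have h1 : (4 * k + 3) % 4 = 3 := by omega
  have h2 : (4 * k + 3) / 4 = k := by omega
  simp [seqBo, h1, h2]

/-- third sequence, odd case -/
def seqCo (m : ℕ) (j : ℕ) : ZMod 2 × ZMod m :=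
  if j % 2 = 0 then (((j / 2 : ℕ) : ZMod 2), -((j / 2 : ℕ) : ZMod m))
  else (((j / 2 : ℕ) : ZMod 2) + 1, ((j / 2 : ℕ) : ZMod m) + 1)

lemma seqCo_0 (m i : ℕ) : seqCo m (2 * i) = ((i : ZMod 2), -(i : ZMod m)) := by
  have h1 : 2 * i % 2 = 0 := by omega
  have h2 : 2 * i / 2 = i := by omega
  simp [seqCo, h1, h2]
lemma seqCo_1 (m i : ℕ) : seqCo m (2 * i + 1) = ((i : ZMod 2) + 1, (i : ZMod m) + 1) := by
  have h1 : ¬ (2 * i + 1) % 2 = 0 := by omega
  have h2 : (2 * i + 1) / 2 = i := by omega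
  rw [seqCo, if_neg h1, h2]

/-- second sequence, even case -/
def seqBe (m : ℕ) (j : ℕ) : ZMod 2 × ZMod m :=
  if j = 0 then (0, 0)
  else if j = 1 then (0, 1)
  else if j % 4 = 0 then (0, ((j / 4 : ℕ) : ZMod m) + 1)
  else if j % 4 = 1 then (0, -((j / 4 : ℕ) : ZMod m))
  else if j % 4 = 2 then (1, ((j / 4 : ℕ) : ZMod m) + 1)
  else (1, -((j / 4 : ℕ) : ZMod m))

lemma seqBe_00 (m : ℕ) : seqBe m 0 = (0, 0) := by simp [seqBe]
lemma seqBe_01 (m : ℕ) : seqBe m 1 = (0, 1) := by simp [seqBe]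
lemma seqBe_0 (m k : ℕ) : seqBe m (4 * (k + 1)) = (0, (k : ZMod m) + 2) := by
  have h1 : 4 * (k + 1) % 4 = 0 := by omega
  have h2 : 4 * (k + 1) / 4 = k + 1 := by omega
  have h3 : ¬ 4 * (k + 1) = 0 := by omega
  have h4 : ¬ 4 * (k + 1) = 1 := by omega
  rw [seqBe, if_neg h3, if_neg h4, if_pos h1, h2]
  push_cast
  ring_nf
lemma seqBe_1 (m k : ℕ) : seqBe m (4 * (k + 1) + 1) = (0, -((k : ZMod m) + 1)) := by
  have h1 : (4 * (k + 1) + 1) % 4 = 1 := by omega
  have h2 : (4 * (k + 1) + 1) / 4 = k + 1 := by omega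
  have h3 : ¬ 4 * (k + 1) + 1 = 0 := by omega
  have h4 : ¬ 4 * (k + 1) + 1 = 1 := by omega
  rw [seqBe, if_neg h3, if_neg h4, if_neg (by omega), if_pos h1, h2]
  push_cast
  rfl
lemma seqBe_2 (m k : ℕ) : seqBe m (4 * k + 2) = (1, (k : ZMod m) + 1) := by
  have h1 : (4 * k + 2) % 4 = 2 := by omega
  have h2 : (4 * k + 2) / 4 = k := by omega
  rw [seqBe, if_neg (by omega), if_neg (by omega), if_neg (by omega), if_neg (by omega),
    if_pos h1, h2]
lemma seqBe_3 (m k : ℕ) : seqBe m (4 * k + 3) = (1, -(k : ZMod m)) := by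
  have h1 : (4 * k + 3) % 4 = 3 := by omega
  have h2 : (4 * k + 3) / 4 = k := by omega
  rw [seqBe, if_neg (by omega), if_neg (by omega), if_neg (by omega), if_neg (by omega),
    if_neg (by omega), h2]

/-- third sequence, even case `m = 2 * h` -/
def seqCe (m h : ℕ) (j : ℕ) : ZMod 2 × ZMod m :=
  if j / 2 < h then
    if j % 2 = 0 then (((j / 2 : ℕ) : ZMod 2), ((j / 2 : ℕ) : ZMod m))
    else (((j / 2 : ℕ) : ZMod 2) + 1, -(((j / 2 : ℕ) : ZMod m) + 1))
  else
    if j % 2 = 0 then (((j / 2 : ℕ) : ZMod 2), -(((j / 2 : ℕ) : ZMod m) + 1))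
    else (((j / 2 : ℕ) : ZMod 2) + 1, ((j / 2 : ℕ) : ZMod m))

lemma seqCe_0 (m h i : ℕ) (hi : i < h) : seqCe m h (2 * i) = ((i : ZMod 2), (i : ZMod m)) := by
  have h2 : 2 * i / 2 = i := by omega
  rw [seqCe, h2, if_pos hi, if_pos (by omega)]
lemma seqCe_1 (m h i : ℕ) (hi : i < h) :
    seqCe m h (2 * i + 1) = ((i : ZMod 2) + 1, -((i : ZMod m) + 1)) := by
  have h2 : (2 * i + 1) / 2 = i := by omega
  rw [seqCe, h2, if_pos hi, if_neg (by omega)]
lemma seqCe_2 (m h i : ℕ) (hi : h ≤ i) :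
    seqCe m h (2 * i) = ((i : ZMod 2), -((i : ZMod m) + 1)) := by
  have h2 : 2 * i / 2 = i := by omega
  rw [seqCe, h2, if_neg (by omega), if_pos (by omega)]
lemma seqCe_3 (m h i : ℕ) (hi : h ≤ i) :
    seqCe m h (2 * i + 1) = ((i : ZMod 2) + 1, (i : ZMod m)) := by
  have h2 : (2 * i + 1) / 2 = i := by omega
  rw [seqCe, h2, if_neg (by omega), if_neg (by omega)]

lemma zmod2_cases (e : ZMod 2) : e = 0 ∨ e = 1 := by
  revert e; decide

lemma zmod2_cases' (e r : ZMod 2) : e = r ∨ e = r + 1 := by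
  revert e r; decide

lemma one_add_one_zmod2 : (1 : ZMod 2) + 1 = 0 := by decide

/-- every residue is `r` with `2 r ≤ m` or `-r` with `1 ≤ r`, `2 r < m`  -/
lemma zmod_rep {m : ℕ} [NeZero m] (x : ZMod m) :
    (∃ r : ℕ, 2 * r ≤ m ∧ x = r) ∨ (∃ r : ℕ, 1 ≤ r ∧ 2 * r < m ∧ x = -r) := by
  have hM : ((m : ℕ) : ZMod m) = 0 := ZMod.natCast_self m
  have hval : ((x.val : ℕ) : ZMod m) = x := ZMod.natCast_zmod_val x
  have hlt := ZMod.val_lt x
  by_cases h : 2 * x.val ≤ m
  · exact Or.inl ⟨x.val, h, hval.symm⟩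
  · refine Or.inr ⟨m - x.val, by omega, by omega, ?_⟩
    rw [Nat.cast_sub hlt.le, hM, hval]
    ring

lemma seqA_surj {m : ℕ} [NeZero m] (x : ZMod 2 × ZMod m) : ∃ j, j < 2 * m ∧ seqA m j = x := by
  obtain ⟨e, x⟩ := x
  have hm : 0 < m := Nat.pos_of_ne_zero (NeZero.ne m)
  rcases zmod2_cases e with rfl | rfl
  · rcases zmod_rep (-x) with ⟨r, hr, hx⟩ | ⟨r, hr1, hr, hx⟩
    · rcases Nat.eq_zero_or_pos r with rfl | hr0
      · refine ⟨4 * 0, by omega, ?_⟩
        rw [seqA_0]
        have : x = 0 := by simpa using hx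
        simp [this]
      · obtain ⟨k, rfl⟩ : ∃ k, r = k + 1 := ⟨r - 1, by omega⟩
        refine ⟨4 * k + 3, by omega, ?_⟩
        rw [seqA_3]
        refine Prod.ext rfl ?_
        simp only
        push_cast at hx
        linear_combination hx
    · refine ⟨4 * r, by omega, ?_⟩
      rw [seqA_0]
      refine Prod.ext rfl ?_
      simp only
      linear_combination hx
  · rcases zmod_rep x with ⟨r, hr, hx⟩ | ⟨r, hr1, hr, hx⟩
    · rcases Nat.eq_zero_or_pos r with rfl | hr0
      · refine ⟨4 * 0 + 1, by omega, ?_⟩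
        rw [seqA_1]
        have : x = 0 := by simpa using hx
        simp [this]
      · obtain ⟨k, rfl⟩ : ∃ k, r = k + 1 := ⟨r - 1, by omega⟩
        refine ⟨4 * k + 2, by omega, ?_⟩
        rw [seqA_2]
        refine Prod.ext rfl ?_
        simp only
        push_cast at hx
        linear_combination -hx
    · refine ⟨4 * r + 1, by omega, ?_⟩
      rw [seqA_1]
      refine Prod.ext rfl ?_
      simp only
      linear_combination -hx

lemma seqBo_surj {h : ℕ} (x : ZMod 2 × ZMod (2 * h + 1)) :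
    ∃ j, j < 2 * (2 * h + 1) ∧ seqBo (2 * h + 1) j = x := by
  obtain ⟨e, x⟩ := x
  rcases zmod2_cases e with rfl | rfl
  · rcases zmod_rep x with ⟨r, hr, hx⟩ | ⟨r, hr1, hr, hx⟩
    · refine ⟨4 * r, by omega, ?_⟩
      rw [seqBo_0, hx]
    · obtain ⟨k, rfl⟩ : ∃ k, r = k + 1 := ⟨r - 1, by omega⟩
      refine ⟨4 * k + 3, by omega, ?_⟩
      rw [seqBo_3, hx]
      push_cast; rfl
  · rcases zmod_rep x with ⟨r, hr, hx⟩ | ⟨r, hr1, hr, hx⟩
    · by_cases hrh : r < h
      · refine ⟨4 * r + 2, by omega, ?_⟩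
        rw [seqBo_2, hx]
      · have hrh' : r = h := by omega
        subst hrh'
        refine ⟨4 * r + 1, by omega, ?_⟩
        have hM : ((2 * r + 1 : ℕ) : ZMod (2 * r + 1)) = 0 := ZMod.natCast_self _
        push_cast at hM
        rw [seqBo_1, hx]
        refine Prod.ext rfl ?_
        simp only
        linear_combination -hM
    · obtain ⟨k, rfl⟩ : ∃ k, r = k + 1 := ⟨r - 1, by omega⟩
      refine ⟨4 * k + 1, by omega, ?_⟩
      rw [seqBo_1, hx]
      push_cast; rfl

lemma seqCo_surj {h : ℕ} (x : ZMod 2 × ZMod (2 * h + 1)) :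
    ∃ j, j < 2 * (2 * h + 1) ∧ seqCo (2 * h + 1) j = x := by
  obtain ⟨e, x⟩ := x
  have hM : ((2 * h + 1 : ℕ) : ZMod (2 * h + 1)) = 0 := ZMod.natCast_self _
  have hval : (((-x).val : ℕ) : ZMod (2 * h + 1)) = -x := ZMod.natCast_zmod_val _
  have hlt := ZMod.val_lt (-x)
  obtain ⟨r, hr⟩ : ∃ r, (-x).val = r := ⟨_, rfl⟩
  rw [hr] at hval hlt
  rcases zmod2_cases' e (r : ZMod 2) with he | he
  · refine ⟨2 * r, by omega, ?_⟩
    rw [seqCo_0, he, hval]
    simp
  · obtain ⟨i, hi⟩ : ∃ i, i + r + 1 = 2 * h + 1 := ⟨2 * h - r, by omega⟩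
    refine ⟨2 * i + 1, by omega, ?_⟩
    rw [seqCo_1, he]
    have h2 : ((i + r + 1 : ℕ) : ZMod 2) = ((2 * h + 1 : ℕ) : ZMod 2) := by rw [hi]
    have h3 : ((i + r + 1 : ℕ) : ZMod (2 * h + 1)) = 0 := by rw [hi, hM]
    push_cast at h2 h3
    have h4 : (2 : ZMod 2) = 0 := by decide
    refine Prod.ext ?_ ?_
    · simp only
      rw [h4] at h2
      linear_combination h2 - (r : ZMod 2) * h4
    · simp only
      linear_combination h3 - hval

lemma seqBe_surj {h : ℕ} (hh : 1 ≤ h) (x : ZMod 2 × ZMod (2 * h)) :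
    ∃ j, j < 2 * (2 * h) ∧ seqBe (2 * h) j = x := by
  obtain ⟨e, x⟩ := x
  have : NeZero (2 * h) := ⟨by omega⟩
  rcases zmod2_cases e with rfl | rfl
  · rcases zmod_rep x with ⟨r, hr, hx⟩ | ⟨r, hr1, hr, hx⟩
    · rcases Nat.eq_zero_or_pos r with rfl | hr0
      · exact ⟨0, by omega, by rw [seqBe_00, hx]; simp⟩
      · obtain rfl | hr2 : r = 1 ∨ 2 ≤ r := by omega
        · exact ⟨1, by omega, by rw [seqBe_01, hx]; simp⟩
        · obtain ⟨k, rfl⟩ : ∃ k, r = k + 2 := ⟨r - 2, by omega⟩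
          refine ⟨4 * (k + 1), by omega, ?_⟩
          rw [seqBe_0, hx]
          push_cast; rfl
    · obtain ⟨k, rfl⟩ : ∃ k, r = k + 1 := ⟨r - 1, by omega⟩
      refine ⟨4 * (k + 1) + 1, by omega, ?_⟩
      rw [seqBe_1, hx]
      push_cast; rfl
  · rcases zmod_rep x with ⟨r, hr, hx⟩ | ⟨r, hr1, hr, hx⟩
    · rcases Nat.eq_zero_or_pos r with rfl | hr0
      · exact ⟨4 * 0 + 3, by omega, by rw [seqBe_3, hx]; simp⟩
      · obtain ⟨k, rfl⟩ : ∃ k, r = k + 1 := ⟨r - 1, by omega⟩
        refine ⟨4 * k + 2, by omega, ?_⟩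
        rw [seqBe_2, hx]
        push_cast; rfl
    · refine ⟨4 * r + 3, by omega, ?_⟩
      rw [seqBe_3, hx]

lemma seqCe_surj {h : ℕ} (hh : 1 ≤ h) (x : ZMod 2 × ZMod (2 * h)) :
    ∃ j, j < 2 * (2 * h) ∧ seqCe (2 * h) h j = x := by
  obtain ⟨e, x⟩ := x
  have : NeZero (2 * h) := ⟨by omega⟩
  have hM : ((2 * h : ℕ) : ZMod (2 * h)) = 0 := ZMod.natCast_self _
  have hval : ((x.val : ℕ) : ZMod (2 * h)) = x := ZMod.natCast_zmod_val _
  have hlt := ZMod.val_lt x
  obtain ⟨r, hr⟩ : ∃ r, x.val = r := ⟨_, rfl⟩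
  rw [hr] at hval hlt
  have h4 : (2 : ZMod 2) = 0 := by decide
  rcases zmod2_cases' e (r : ZMod 2) with he | he
  · by_cases hrh : r < h
    · refine ⟨2 * r, by omega, ?_⟩
      rw [seqCe_0 _ _ _ hrh, he, hval]
    · obtain ⟨i, hi⟩ : ∃ i, i + r + 1 = 2 * h := ⟨2 * h - r - 1, by omega⟩
      have h2 : ((i + r + 1 : ℕ) : ZMod 2) = ((2 * h : ℕ) : ZMod 2) := by rw [hi]
      have h3 : ((i + r + 1 : ℕ) : ZMod (2 * h)) = 0 := by rw [hi, hM]
      push_cast at h2 h3
      refine ⟨2 * i + 1, by omega, ?_⟩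
      rw [seqCe_1 _ _ _ (by omega), he]
      refine Prod.ext ?_ ?_
      · simp only
        linear_combination h2 - (r : ZMod 2) * h4 + (h : ZMod 2) * h4
      · simp only
        linear_combination -h3 + hval
  · by_cases hrh : r < h
    · obtain ⟨i, hi⟩ : ∃ i, i + r + 1 = 2 * h := ⟨2 * h - r - 1, by omega⟩
      have h2 : ((i + r + 1 : ℕ) : ZMod 2) = ((2 * h : ℕ) : ZMod 2) := by rw [hi]
      have h3 : ((i + r + 1 : ℕ) : ZMod (2 * h)) = 0 := by rw [hi, hM]
      push_cast at h2 h3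
      refine ⟨2 * i, by omega, ?_⟩
      rw [seqCe_2 _ _ _ (by omega), he]
      refine Prod.ext ?_ ?_
      · simp only
        linear_combination h2 - (r : ZMod 2) * h4 + (h : ZMod 2) * h4 - h4
      · simp only
        linear_combination -h3 + hval
    · refine ⟨2 * r + 1, by omega, ?_⟩
      rw [seqCe_3 _ _ _ (by omega), he, hval]


/-- the pair `(d, s)` occurs in the sequence `X` -/
def Occ2 {V : Type} [Add V] (N : ℕ) (X : ℕ → V) (d s : V) : Prop :=
  ∃ j, j + 2 < N ∧ X (j + 1) = X j + d ∧ X (j + 2) = X j + s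

lemma z2a : (0 : ZMod 2) = 1 + 1 := by decide

lemma three_odd {h : ℕ} (s d : ZMod 2 × ZMod (2 * h + 1))
    (hs : s = (1, 1) ∨ s = (1, 0) ∨ s = (1, -1)) (hd : d ≠ 0) (hds : d ≠ s) :
    Occ2 (2 * (2 * h + 1)) (seqA (2 * h + 1)) d s ∨ Occ2 (2 * (2 * h + 1)) (seqBo (2 * h + 1)) d s ∨
      Occ2 (2 * (2 * h + 1)) (seqCo (2 * h + 1)) d s := by
  have hM : ((2 * h + 1 : ℕ) : ZMod (2 * h + 1)) = 0 := ZMod.natCast_self _
  have hM' := hM
  push_cast at hM'
  obtain ⟨e, x⟩ := d
  have hval : ((x.val : ℕ) : ZMod (2 * h + 1)) = x := ZMod.natCast_zmod_val _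
  have hlt := ZMod.val_lt x
  have hval' : (((-x).val : ℕ) : ZMod (2 * h + 1)) = -x := ZMod.natCast_zmod_val _
  have hlt' := ZMod.val_lt (-x)
  obtain ⟨y, hy⟩ : ∃ y, x.val = y := ⟨_, rfl⟩
  obtain ⟨y', hy'⟩ : ∃ y, (-x).val = y := ⟨_, rfl⟩
  rw [hy] at hval hlt
  rw [hy'] at hval' hlt'
  rcases hs with rfl | rfl | rfl <;> rcases zmod2_cases e with rfl | rfl
  · -- s = (1,1), e = 0 : C
    right; right
    have hx0 : x ≠ 0 := fun h0 => hd (by rw [h0]; rfl)
    have hy0 : y' ≠ 0 := by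
      rintro rfl; apply hx0; have := hval'; simp only [Nat.cast_zero] at this
      exact (neg_eq_zero.1 this.symm)
    obtain ⟨i, hi, hi2⟩ : ∃ i, i + 1 ≤ 2 * h ∧ (2 * (i + 1) = y' ∨ 2 * (i + 1) = y' + (2 * h + 1)) := by
      rcases Nat.even_or_odd' y' with ⟨t, rfl | rfl⟩
      · exact ⟨t - 1, by omega, Or.inl (by omega)⟩
      · exact ⟨t + h, by omega, Or.inr (by omega)⟩
    have hi3 : (2 : ZMod (2 * h + 1)) * (i + 1) = - x := by
      rcases hi2 with hi2 | hi2
      · rw [← hval', ← hi2]; push_cast; ring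
      · have h3 : ((2 * (i + 1) : ℕ) : ZMod (2 * h + 1)) = ((y' + (2 * h + 1) : ℕ) : ZMod (2 * h + 1)) := by
          rw [hi2]
        rw [Nat.cast_add, hM, hval'] at h3
        push_cast at h3
        linear_combination h3
    refine ⟨2 * i + 1, by omega, ?_, ?_⟩
    · rw [show 2 * i + 1 + 1 = 2 * (i + 1) by ring, seqCo_0, seqCo_1]
      refine Prod.ext ?_ ?_
      · simp
      · simp only [Prod.mk_add_mk]; push_cast; linear_combination -hi3
    · rw [show 2 * i + 1 + 2 = 2 * (i + 1) + 1 by ring, seqCo_1, seqCo_1]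
      refine Prod.ext ?_ ?_
      · simp
      · simp
  · -- s = (1,1), e = 1
    have hx1 : x ≠ 1 := fun h0 => hds (by rw [h0])
    have hy1 : y' ≠ 2 * h := by
      rintro rfl; apply hx1; push_cast at hval'; linear_combination hval' - hM'
    rcases Nat.even_or_odd' y' with ⟨k, rfl | rfl⟩
    · left
      refine ⟨4 * k, by omega, ?_, ?_⟩
      · rw [seqA_1, seqA_0]
        refine Prod.ext (by simp) ?_
        simp only [Prod.mk_add_mk]; push_cast at hval'; linear_combination -hval'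
      · rw [seqA_2, seqA_0]
        refine Prod.ext (by simp) (by simp)
    · right; left
      refine ⟨4 * k + 2, by omega, ?_, ?_⟩
      · rw [show 4 * k + 2 + 1 = 4 * k + 3 by ring, seqBo_3, seqBo_2]
        refine Prod.ext (by simp; decide) ?_
        simp only [Prod.mk_add_mk]; push_cast at hval'; linear_combination -hval'
      · rw [show 4 * k + 2 + 2 = 4 * (k + 1) by ring, seqBo_0, seqBo_2]
        refine Prod.ext (by simp; decide) (by simp)
  · -- s = (1,0), e = 0
    have hx0 : x ≠ 0 := fun h0 => hd (by rw [h0]; rfl)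
    have hy0 : y ≠ 0 := by
      rintro rfl; apply hx0; rw [← hval]; simp
    obtain ⟨i, rfl⟩ : ∃ i, y = i + 1 := ⟨y - 1, by omega⟩
    rcases Nat.even_or_odd' i with ⟨k, rfl | rfl⟩
    · right; left
      refine ⟨4 * k + 1, by omega, ?_, ?_⟩
      · rw [show 4 * k + 1 + 1 = 4 * k + 2 by ring, seqBo_2, seqBo_1]
        refine Prod.ext (by simp) ?_
        simp only [Prod.mk_add_mk]; push_cast at hval; linear_combination hval
      · rw [show 4 * k + 1 + 2 = 4 * k + 3 by ring, seqBo_3, seqBo_1]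
        refine Prod.ext (by simp; decide) (by simp)
    · left
      refine ⟨4 * k + 3, by omega, ?_, ?_⟩
      · rw [show 4 * k + 3 + 1 = 4 * (k + 1) by ring, seqA_0, seqA_3]
        refine Prod.ext (by simp) ?_
        simp only [Prod.mk_add_mk]; push_cast at hval ⊢; linear_combination hval
      · rw [show 4 * k + 3 + 2 = 4 * (k + 1) + 1 by ring, seqA_1, seqA_3]
        refine Prod.ext (by simp) (by simp)
  · -- s = (1,0), e = 1
    have hx0 : x ≠ 0 := fun h0 => hds (by rw [h0])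
    have hy0 : y' ≠ 0 := by
      rintro rfl; apply hx0; have := hval'; simp only [Nat.cast_zero] at this
      exact (neg_eq_zero.1 this.symm)
    obtain ⟨i, rfl⟩ : ∃ i, y' = i + 1 := ⟨y' - 1, by omega⟩
    rcases Nat.even_or_odd' i with ⟨k, rfl | rfl⟩
    · right; left
      refine ⟨4 * k, by omega, ?_, ?_⟩
      · rw [seqBo_1, seqBo_0]
        refine Prod.ext (by simp) ?_
        simp only [Prod.mk_add_mk]; push_cast at hval'; linear_combination -hval'
      · rw [seqBo_2, seqBo_0]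
        refine Prod.ext (by simp) (by simp)
    · left
      refine ⟨4 * k + 2, by omega, ?_, ?_⟩
      · rw [show 4 * k + 2 + 1 = 4 * k + 3 by ring, seqA_3, seqA_2]
        refine Prod.ext (by simp; decide) ?_
        simp only [Prod.mk_add_mk]; push_cast at hval' ⊢; linear_combination -hval'
      · rw [show 4 * k + 2 + 2 = 4 * (k + 1) by ring, seqA_0, seqA_2]
        refine Prod.ext (by simp; decide) (by simp)
  · -- s = (1,-1), e = 0
    have hx0 : x ≠ 0 := fun h0 => hd (by rw [h0]; rfl)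
    have hy0 : y ≠ 0 := by
      rintro rfl; apply hx0; rw [← hval]; simp
    obtain ⟨i, rfl⟩ : ∃ i, y = i + 1 := ⟨y - 1, by omega⟩
    rcases Nat.even_or_odd' i with ⟨k, rfl | rfl⟩
    · left
      refine ⟨4 * k + 1, by omega, ?_, ?_⟩
      · rw [show 4 * k + 1 + 1 = 4 * k + 2 by ring, seqA_2, seqA_1]
        refine Prod.ext (by simp) ?_
        simp only [Prod.mk_add_mk]; push_cast at hval; linear_combination hval
      · rw [show 4 * k + 1 + 2 = 4 * k + 3 by ring, seqA_3, seqA_1]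
        refine Prod.ext (by simp; decide) ?_
        simp only [Prod.mk_add_mk]; ring
    · right; left
      refine ⟨4 * k + 3, by omega, ?_, ?_⟩
      · rw [show 4 * k + 3 + 1 = 4 * (k + 1) by ring, seqBo_0, seqBo_3]
        refine Prod.ext (by simp) ?_
        simp only [Prod.mk_add_mk]; push_cast at hval ⊢; linear_combination hval
      · rw [show 4 * k + 3 + 2 = 4 * (k + 1) + 1 by ring, seqBo_1, seqBo_3]
        refine Prod.ext (by simp) ?_
        simp only [Prod.mk_add_mk]; push_cast; ring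
  · -- s = (1,-1), e = 1 : C
    right; right
    have hx1 : x ≠ -1 := fun h0 => hds (by rw [h0])
    have hy1 : y ≠ 2 * h := by
      rintro rfl; apply hx1; push_cast at hval; linear_combination -hval + hM'
    obtain ⟨i, hi, hi2⟩ : ∃ i, i + 1 ≤ 2 * h ∧ (2 * i + 1 = y ∨ 2 * i + 1 = y + (2 * h + 1)) := by
      rcases Nat.even_or_odd' y with ⟨t, rfl | rfl⟩
      · exact ⟨t + h, by omega, Or.inr (by omega)⟩
      · exact ⟨t, by omega, Or.inl (by omega)⟩
    have hi3 : (2 : ZMod (2 * h + 1)) * i + 1 = x := by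
      rcases hi2 with hi2 | hi2
      · rw [← hval, ← hi2]; push_cast; ring
      · have h3 : ((2 * i + 1 : ℕ) : ZMod (2 * h + 1)) = ((y + (2 * h + 1) : ℕ) : ZMod (2 * h + 1)) := by
          rw [hi2]
        rw [Nat.cast_add y, hM, hval] at h3
        push_cast at h3
        linear_combination h3
    refine ⟨2 * i, by omega, ?_, ?_⟩
    · rw [seqCo_0, seqCo_1]
      refine Prod.ext (by simp) ?_
      simp only [Prod.mk_add_mk]; linear_combination hi3
    · rw [show 2 * i + 2 = 2 * (i + 1) by ring, seqCo_0, seqCo_0]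
      refine Prod.ext (by simp) ?_
      simp only [Prod.mk_add_mk]; push_cast; ring


lemma three_even {h : ℕ} (hh : 2 ≤ h) (s d : ZMod 2 × ZMod (2 * h))
    (hs : s = (1, 1) ∨ s = (1, 0) ∨ s = (1, -1)) (hd : d ≠ 0) (hds : d ≠ s) :
    Occ2 (2 * (2 * h)) (seqA (2 * h)) d s ∨ Occ2 (2 * (2 * h)) (seqBe (2 * h)) d s ∨
      Occ2 (2 * (2 * h)) (seqCe (2 * h) h) d s := by
  have : NeZero (2 * h) := ⟨by omega⟩
  have hM : ((2 * h : ℕ) : ZMod (2 * h)) = 0 := ZMod.natCast_self _
  have hM' := hM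
  push_cast at hM'
  obtain ⟨e, x⟩ := d
  have hval : ((x.val : ℕ) : ZMod (2 * h)) = x := ZMod.natCast_zmod_val _
  have hlt := ZMod.val_lt x
  have hval' : (((-x).val : ℕ) : ZMod (2 * h)) = -x := ZMod.natCast_zmod_val _
  have hlt' := ZMod.val_lt (-x)
  obtain ⟨y, hy⟩ : ∃ y, x.val = y := ⟨_, rfl⟩
  obtain ⟨y', hy'⟩ : ∃ y, (-x).val = y := ⟨_, rfl⟩
  rw [hy] at hval hlt
  rw [hy'] at hval' hlt'
  rcases hs with rfl | rfl | rfl <;> rcases zmod2_cases e with rfl | rfl
  · -- s = (1,1), e = 0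
    right
    have hx0 : x ≠ 0 := fun h0 => hd (by rw [h0]; rfl)
    have hy0 : y' ≠ 0 := by
      rintro rfl; apply hx0; have := hval'; simp only [Nat.cast_zero] at this
      exact (neg_eq_zero.1 this.symm)
    rcases Nat.even_or_odd' y' with ⟨k, rfl | rfl⟩
    · right
      obtain ⟨k, rfl⟩ : ∃ j, k = j + 1 := ⟨k - 1, by omega⟩
      push_cast at hval'
      refine ⟨2 * (h + k) + 1, by omega, ?_, ?_⟩
      · rw [show 2 * (h + k) + 1 + 1 = 2 * (h + k + 1) by ring, seqCe_2 _ _ _ (by omega),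
          seqCe_3 _ _ _ (by omega)]
        refine Prod.ext (by simp) ?_
        simp only [Prod.mk_add_mk]; push_cast; linear_combination -hval' - hM'
      · rw [show 2 * (h + k) + 1 + 2 = 2 * (h + k + 1) + 1 by ring, seqCe_3 _ _ _ (by omega),
          seqCe_3 _ _ _ (by omega)]
        refine Prod.ext (by simp) (by simp)
    · left
      by_cases hk : k + 1 = h
      · have hx1 : x = 1 := by
          have h3 : ((2 * k + 1 : ℕ) : ZMod (2 * h)) + 1 = 0 := by
            rw [← hM, ← hk]; push_cast; ring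
          rw [hval'] at h3
          linear_combination -h3
        refine ⟨0, by omega, ?_, ?_⟩
        · rw [seqBe_01, seqBe_00, hx1]; simp
        · rw [show 0 + 2 = 4 * 0 + 2 by ring, seqBe_2, seqBe_00]; simp
      · push_cast at hval'
        refine ⟨4 * k + 2, by omega, ?_, ?_⟩
        · rw [show 4 * k + 2 + 1 = 4 * k + 3 by ring, seqBe_3, seqBe_2]
          refine Prod.ext (by simp) ?_
          simp only [Prod.mk_add_mk]; linear_combination -hval'
        · rw [show 4 * k + 2 + 2 = 4 * (k + 1) by ring, seqBe_0, seqBe_2]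
          refine Prod.ext (by simp; decide) ?_
          simp only [Prod.mk_add_mk]; ring
  · -- s = (1,1), e = 1
    have hx1 : x ≠ 1 := fun h0 => hds (by rw [h0])
    have hy1 : y' + 1 ≠ 2 * h := by
      intro h3; apply hx1
      have h4 : ((y' + 1 : ℕ) : ZMod (2 * h)) = 0 := by rw [h3, hM]
      push_cast at h4
      rw [hval'] at h4
      linear_combination -h4
    rcases Nat.even_or_odd' y' with ⟨k, rfl | rfl⟩
    · left
      push_cast at hval'
      refine ⟨4 * k, by omega, ?_, ?_⟩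
      · rw [seqA_1, seqA_0]
        refine Prod.ext (by simp) ?_
        simp only [Prod.mk_add_mk]; linear_combination -hval'
      · rw [seqA_2, seqA_0]
        refine Prod.ext (by simp) (by simp)
    · right; right
      push_cast at hval'
      refine ⟨2 * k, by omega, ?_, ?_⟩
      · rw [seqCe_1 _ _ _ (by omega), seqCe_0 _ _ _ (by omega)]
        refine Prod.ext (by simp) ?_
        simp only [Prod.mk_add_mk]; linear_combination -hval'
      · rw [show 2 * k + 2 = 2 * (k + 1) by ring, seqCe_0 _ _ _ (by omega),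
          seqCe_0 _ _ _ (by omega)]
        refine Prod.ext (by simp) (by simp)
  · -- s = (1,0), e = 0
    have hx0 : x ≠ 0 := fun h0 => hd (by rw [h0]; rfl)
    have hy0 : y ≠ 0 := by
      rintro rfl; apply hx0; rw [← hval]; simp
    rcases Nat.even_or_odd' y with ⟨k, rfl | rfl⟩
    · left
      obtain ⟨k, rfl⟩ : ∃ j, k = j + 1 := ⟨k - 1, by omega⟩
      push_cast at hval
      refine ⟨4 * k + 3, by omega, ?_, ?_⟩
      · rw [show 4 * k + 3 + 1 = 4 * (k + 1) by ring, seqA_0, seqA_3]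
        refine Prod.ext (by simp) ?_
        simp only [Prod.mk_add_mk]; push_cast; linear_combination hval
      · rw [show 4 * k + 3 + 2 = 4 * (k + 1) + 1 by ring, seqA_1, seqA_3]
        refine Prod.ext (by simp) ?_
        simp only [Prod.mk_add_mk]; push_cast; ring
    · right
      by_cases hk : k + 1 = h
      · -- x = -1
        right
        have hx1 : x = -1 := by
          have h3 : ((2 * k + 1 : ℕ) : ZMod (2 * h)) + 1 = 0 := by
            rw [← hM, ← hk]; push_cast; ring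
          rw [hval] at h3
          linear_combination h3
        refine ⟨2 * k + 1, by omega, ?_, ?_⟩
        · rw [show 2 * k + 1 + 1 = 2 * (k + 1) by ring, seqCe_2 _ _ _ (by omega),
            seqCe_1 _ _ _ (by omega), hx1]
          refine Prod.ext (by simp) ?_
          simp only [Prod.mk_add_mk]; push_cast; ring
        · rw [show 2 * k + 1 + 2 = 2 * (k + 1) + 1 by ring, seqCe_3 _ _ _ (by omega),
            seqCe_1 _ _ _ (by omega)]
          refine Prod.ext (by simp) ?_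
          have h5 : (h : ZMod (2 * h)) = (k : ZMod (2 * h)) + 1 := by rw [← hk]; push_cast; ring
          rw [h5] at hM'
          simp only [Prod.mk_add_mk]; push_cast; linear_combination hM'
      · left
        obtain ⟨k', hk'⟩ : ∃ j, 2 * j + 3 + (2 * k + 1) = 2 * h := ⟨h - k - 2, by omega⟩
        have h3 : ((2 * k' + 3 : ℕ) : ZMod (2 * h)) = -x := by
          have : ((2 * k' + 3 + (2 * k + 1) : ℕ) : ZMod (2 * h)) = 0 := by rw [hk', hM]
          rw [Nat.cast_add, hval] at this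
          linear_combination this
        push_cast at h3
        refine ⟨4 * (k' + 1), by omega, ?_, ?_⟩
        · rw [seqBe_1, seqBe_0]
          refine Prod.ext (by simp) ?_
          simp only [Prod.mk_add_mk]; linear_combination -h3
        · rw [show 4 * (k' + 1) + 2 = 4 * (k' + 1) + 2 by ring, seqBe_2, seqBe_0]
          refine Prod.ext (by simp) ?_
          simp only [Prod.mk_add_mk]; push_cast; ring
  · -- s = (1,0), e = 1
    have hx0 : x ≠ 0 := fun h0 => hds (by rw [h0])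
    have hy0 : y ≠ 0 := by
      rintro rfl; apply hx0; rw [← hval]; simp
    rcases Nat.even_or_odd' y with ⟨k, rfl | rfl⟩
    · left
      obtain ⟨k', hk'⟩ : ∃ j, 2 * (j + 1) + 2 * k = 2 * h := ⟨h - k - 1, by omega⟩
      have h3 : ((2 * (k' + 1) : ℕ) : ZMod (2 * h)) = -x := by
        have : ((2 * (k' + 1) + 2 * k : ℕ) : ZMod (2 * h)) = 0 := by rw [hk', hM]
        rw [Nat.cast_add, hval] at this
        linear_combination this
      push_cast at h3
      refine ⟨4 * k' + 2, by omega, ?_, ?_⟩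
      · rw [show 4 * k' + 2 + 1 = 4 * k' + 3 by ring, seqA_3, seqA_2]
        refine Prod.ext (by simp; decide) ?_
        simp only [Prod.mk_add_mk]; linear_combination -h3
      · rw [show 4 * k' + 2 + 2 = 4 * (k' + 1) by ring, seqA_0, seqA_2]
        refine Prod.ext (by simp; decide) (by simp)
    · right
      by_cases hk : k = 0
      · -- x = 1
        right
        subst hk
        have hx1 : x = 1 := by rw [← hval]; simp
        obtain ⟨g, rfl⟩ : ∃ g, h = g + 1 := ⟨h - 1, by omega⟩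
        push_cast at hM'
        refine ⟨2 * g, by omega, ?_, ?_⟩
        · rw [seqCe_1 _ _ _ (by omega), seqCe_0 _ _ _ (by omega), hx1]
          refine Prod.ext (by simp) ?_
          simp only [Prod.mk_add_mk]; linear_combination -hM'
        · rw [show 2 * g + 2 = 2 * (g + 1) by ring, seqCe_2 _ _ _ (by omega),
            seqCe_0 _ _ _ (by omega)]
          refine Prod.ext (by simp) ?_
          simp only [Prod.mk_add_mk]; push_cast; linear_combination -hM'
      · left
        obtain ⟨k', rfl⟩ : ∃ j, k = j + 1 := ⟨k - 1, by omega⟩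
        push_cast at hval
        refine ⟨4 * (k' + 1) + 1, by omega, ?_, ?_⟩
        · rw [show 4 * (k' + 1) + 1 + 1 = 4 * (k' + 1) + 2 by ring, seqBe_2, seqBe_1]
          refine Prod.ext (by simp) ?_
          simp only [Prod.mk_add_mk]; push_cast; linear_combination hval
        · rw [show 4 * (k' + 1) + 1 + 2 = 4 * (k' + 1) + 3 by ring, seqBe_3, seqBe_1]
          refine Prod.ext (by simp) ?_
          simp only [Prod.mk_add_mk]; push_cast; ring
  · -- s = (1,-1), e = 0
    have hx0 : x ≠ 0 := fun h0 => hd (by rw [h0]; rfl)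
    have hy0 : y ≠ 0 := by
      rintro rfl; apply hx0; rw [← hval]; simp
    rcases Nat.even_or_odd' y with ⟨k, rfl | rfl⟩
    · right; right
      obtain ⟨i, rfl⟩ : ∃ j, k = j + 1 := ⟨k - 1, by omega⟩
      push_cast at hval
      refine ⟨2 * i + 1, by omega, ?_, ?_⟩
      · rw [show 2 * i + 1 + 1 = 2 * (i + 1) by ring, seqCe_0 _ _ _ (by omega),
          seqCe_1 _ _ _ (by omega)]
        refine Prod.ext (by simp) ?_
        simp only [Prod.mk_add_mk]; push_cast; linear_combination hval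
      · rw [show 2 * i + 1 + 2 = 2 * (i + 1) + 1 by ring, seqCe_1 _ _ _ (by omega),
          seqCe_1 _ _ _ (by omega)]
        refine Prod.ext (by simp) ?_
        simp only [Prod.mk_add_mk]; push_cast; ring
    · left
      push_cast at hval
      refine ⟨4 * k + 1, by omega, ?_, ?_⟩
      · rw [show 4 * k + 1 + 1 = 4 * k + 2 by ring, seqA_2, seqA_1]
        refine Prod.ext (by simp) ?_
        simp only [Prod.mk_add_mk]; linear_combination hval
      · rw [show 4 * k + 1 + 2 = 4 * k + 3 by ring, seqA_3, seqA_1]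
        refine Prod.ext (by simp; decide) ?_
        simp only [Prod.mk_add_mk]; ring
  · -- s = (1,-1), e = 1
    right
    have hx1 : x ≠ -1 := fun h0 => hds (by rw [h0])
    have hy1 : y + 1 ≠ 2 * h := by
      intro h3; apply hx1
      have h4 : ((y + 1 : ℕ) : ZMod (2 * h)) = 0 := by rw [h3, hM]
      push_cast at h4
      rw [hval] at h4
      linear_combination h4
    rcases Nat.even_or_odd' y with ⟨k, rfl | rfl⟩
    · left
      by_cases hk : k = 0
      · subst hk
        have hx0 : x = 0 := by rw [← hval]; simp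
        refine ⟨1, by omega, ?_, ?_⟩
        · rw [show 1 + 1 = 4 * 0 + 2 by ring, seqBe_2, seqBe_01, hx0]; simp
        · rw [show 1 + 2 = 4 * 0 + 3 by ring, seqBe_3, seqBe_01]; simp
      · obtain ⟨k', rfl⟩ : ∃ j, k = j + 1 := ⟨k - 1, by omega⟩
        push_cast at hval
        refine ⟨4 * k' + 3, by omega, ?_, ?_⟩
        · rw [show 4 * k' + 3 + 1 = 4 * (k' + 1) by ring, seqBe_0, seqBe_3]
          refine Prod.ext (by simp; decide) ?_
          simp only [Prod.mk_add_mk]; linear_combination hval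
        · rw [show 4 * k' + 3 + 2 = 4 * (k' + 1) + 1 by ring, seqBe_1, seqBe_3]
          refine Prod.ext (by simp; decide) ?_
          simp only [Prod.mk_add_mk]; ring
    · right
      push_cast at hval
      refine ⟨2 * (h + k), by omega, ?_, ?_⟩
      · rw [seqCe_3 _ _ _ (by omega), seqCe_2 _ _ _ (by omega)]
        refine Prod.ext (by simp) ?_
        simp only [Prod.mk_add_mk]; push_cast; linear_combination hval + hM'
      · rw [show 2 * (h + k) + 2 = 2 * (h + k + 1) by ring, seqCe_2 _ _ _ (by omega),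
          seqCe_2 _ _ _ (by omega)]
        refine Prod.ext (by simp) ?_
        simp only [Prod.mk_add_mk]; push_cast; ring


/-! ### Even orders `2 m`: the three special squares -/

lemma inj_of_surj {V : Type} [Fintype V] {n : ℕ} (hV : Fintype.card V = n) (f : ℕ → V)
    (hf : ∀ x, ∃ j, j < n ∧ f j = x) : ∀ i j, i < n → j < n → f i = f j → i = j := by
  have hsurj : Function.Surjective (fun u : Fin n => f u) := by
    intro x
    obtain ⟨j, hj, rfl⟩ := hf x
    exact ⟨⟨j, hj⟩, rfl⟩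
  have hbij := (Fintype.bijective_iff_surjective_and_card _).2
    ⟨hsurj, by rw [Fintype.card_fin, hV]⟩
  intro i j hi hj h
  have := hbij.1 (a₁ := ⟨i, hi⟩) (a₂ := ⟨j, hj⟩) h
  simpa using this

/-- relabelling of the second half -/
def psi (m : ℕ) (p : ZMod 2 × ZMod m) : ZMod 2 × ZMod m :=
  if p.1 = 0 then p else (p.1, p.2 + 2)

lemma psi_inj (m : ℕ) : Function.Injective (psi m) := by
  rintro ⟨a, x⟩ ⟨b, y⟩ h
  rcases zmod2_cases a with rfl | rfl <;> rcases zmod2_cases b with rfl | rfl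
  · simpa [psi] using h
  · exact absurd h (by simp [psi])
  · exact absurd h (by simp [psi])
  · simpa [psi] using h

lemma covers_special {m : ℕ} [NeZero m] (X : ℕ → ZMod 2 × ZMod m)
    (hX : ∀ x, ∃ j, j < 2 * m ∧ X j = x) :
    Covers (ZMod 2 × ZMod m) (2 * m) 1 (fun a b c => ∃ g d s, a = psi m g ∧ b = psi m (g + d) ∧
      c = psi m (g + s) ∧ Occ2 (2 * m) X d s) := by
  have hcard : Fintype.card (ZMod 2 × ZMod m) = 2 * m := by
    rw [Fintype.card_prod, ZMod.card, ZMod.card]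
  refine ⟨fun _ v j => psi m (v + X j), ?_, ?_, ?_⟩
  · intro q v i j hi hj h
    exact inj_of_surj hcard X hX i j hi hj (add_left_cancel (psi_inj m h))
  · intro q j hj v v' h
    exact add_right_cancel (psi_inj m h)
  · rintro a b c - - - ⟨g, d, s, rfl, rfl, rfl, j, hj, h1, h2⟩
    refine ⟨0, g - X j, j, hj, ?_, ?_, ?_⟩
    · simp
    · simp only [h1]; congr 1; abel
    · simp only [h2]; congr 1; abel

/-- adjacency in the cubic graph covered by the three special squares -/
def HAdj {m : ℕ} (a c : ZMod 2 × ZMod m) : Prop :=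
  ∃ t : ℕ, 1 ≤ t ∧ t ≤ 3 ∧ ((a.1 = 0 ∧ c.1 = 1 ∧ c.2 - a.2 = t) ∨
    (c.1 = 0 ∧ a.1 = 1 ∧ a.2 - c.2 = t))

lemma covers_H_aux {m : ℕ} [NeZero m] (A B C : ℕ → ZMod 2 × ZMod m)
    (hA : ∀ x, ∃ j, j < 2 * m ∧ A j = x) (hB : ∀ x, ∃ j, j < 2 * m ∧ B j = x)
    (hC : ∀ x, ∃ j, j < 2 * m ∧ C j = x)
    (h3 : ∀ s d : ZMod 2 × ZMod m, (s = (1, 1) ∨ s = (1, 0) ∨ s = (1, -1)) → d ≠ 0 → d ≠ s →
      Occ2 (2 * m) A d s ∨ Occ2 (2 * m) B d s ∨ Occ2 (2 * m) C d s) :
    Covers (ZMod 2 × ZMod m) (2 * m) 3 (fun a _ c => HAdj a c) := by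
  refine (((covers_special A hA).add (covers_special B hB)).add (covers_special C hC)).mono ?_
  rintro a b c hab hbc hac ⟨t, ht1, ht3, ht⟩
  have key : ∃ g d s, a = psi m g ∧ b = psi m (g + d) ∧ c = psi m (g + s) ∧
      (s = (1, 1) ∨ s = (1, 0) ∨ s = (1, -1)) := by
    obtain ⟨a1, x⟩ := a
    obtain ⟨c1, y⟩ := c
    obtain ⟨b1, z⟩ := b
    have hsurj : ∀ v : ZMod 2 × ZMod m, ∃ w, psi m w = v :=
      (Finite.injective_iff_surjective.1 (psi_inj m))
    obtain ⟨w, hw⟩ := hsurj (b1, z)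
    rcases ht with ⟨h1, h2, h3⟩ | ⟨h1, h2, h3⟩
    · simp only at h1 h2 h3
      subst h1 h2
      refine ⟨(0, x), w - (0, x), (1, y - x - 2), by simp [psi], by rw [← hw]; congr 1; abel, ?_,
        ?_⟩
      · simp only [psi, Prod.mk_add_mk, zero_add, one_ne_zero, if_false]
        refine Prod.ext rfl ?_
        simp only
        ring
      · obtain rfl | rfl | rfl : t = 1 ∨ t = 2 ∨ t = 3 := by omega
        · right; right; rw [h3]; refine Prod.ext rfl ?_; simp only; push_cast; ring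
        · right; left; rw [h3]; refine Prod.ext rfl ?_; simp only; push_cast; ring
        · left; rw [h3]; refine Prod.ext rfl ?_; simp only; push_cast; ring
    · simp only at h1 h2 h3
      subst h1 h2
      refine ⟨(1, x - 2), w - (1, x - 2), (1, y - x + 2), by simp [psi], by rw [← hw]; congr 1; abel,
        ?_, ?_⟩
      · have : (1 : ZMod 2) + 1 = 0 := by decide
        simp [psi, this]
      · have h4 : y - x + 2 = 2 - (t : ZMod m) := by rw [← h3]; ring
        obtain rfl | rfl | rfl : t = 1 ∨ t = 2 ∨ t = 3 := by omega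
        · left; rw [h4]; refine Prod.ext rfl ?_; simp only; push_cast; ring
        · right; left; rw [h4]; refine Prod.ext rfl ?_; simp only; push_cast; ring
        · right; right; rw [h4]; refine Prod.ext rfl ?_; simp only; push_cast; ring
  obtain ⟨g, d, s, ha, hb, hc, hs⟩ := key
  have hd : d ≠ 0 := by
    rintro rfl; apply hab; rw [ha, hb]; simp
  have hds : d ≠ s := by
    rintro rfl; exact hbc (by rw [hb, hc])
  rcases h3 s d hs hd hds with h | h | h
  · exact Or.inl (Or.inl ⟨g, d, s, ha, hb, hc, h⟩)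
  · exact Or.inl (Or.inr ⟨g, d, s, ha, hb, hc, h⟩)
  · exact Or.inr ⟨g, d, s, ha, hb, hc, h⟩

lemma covers_H_even {h : ℕ} (hh : 2 ≤ h) :
    Covers (ZMod 2 × ZMod (2 * h)) (2 * (2 * h)) 3 (fun a _ c => HAdj a c) := by
  have : NeZero (2 * h) := ⟨by omega⟩
  exact covers_H_aux (seqA (2 * h)) (seqBe (2 * h)) (seqCe (2 * h) h) seqA_surj
    (seqBe_surj (by omega)) (seqCe_surj (by omega)) (three_even hh)

lemma covers_H_odd {h : ℕ} :
    Covers (ZMod 2 × ZMod (2 * h + 1)) (2 * (2 * h + 1)) 3 (fun a _ c => HAdj a c) :=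
  covers_H_aux (seqA (2 * h + 1)) (seqBo (2 * h + 1)) (seqCo (2 * h + 1)) seqA_surj
    seqBo_surj seqCo_surj three_odd

/-! ### Even orders: the remaining Hamiltonian cycles -/

/-- the Hamiltonian cycle `Γ i` -/
def gam (m i : ℕ) (j : ℕ) : ZMod 2 × ZMod m :=
  if j < m then (0, (i : ZMod m) + ((zz j : ℤ) : ZMod m))
  else (1, (i : ZMod m) + ((zz (2 * m - 1 - j) : ℤ) : ZMod m))

lemma gam_0 {m i j : ℕ} (hj : j < m) :
    gam m i j = (0, (i : ZMod m) + ((zz j : ℤ) : ZMod m)) := by rw [gam, if_pos hj]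

lemma gam_1 {m i j : ℕ} (hj : j < m) :
    gam m i (2 * m - 1 - j) = (1, (i : ZMod m) + ((zz j : ℤ) : ZMod m)) := by
  rw [gam, if_neg (by omega)]
  congr 5
  omega

lemma gam_surj {m i : ℕ} [NeZero m] (x : ZMod 2 × ZMod m) : ∃ j, j < 2 * m ∧ gam m i j = x := by
  obtain ⟨e, x⟩ := x
  have hm : 0 < m := Nat.pos_of_ne_zero (NeZero.ne m)
  have hinj : Function.Injective (fun j : Fin m => ((zz j : ℤ) : ZMod m)) := by
    rintro ⟨j, hj⟩ ⟨j', hj'⟩ h
    exact Fin.ext (zz_inj hj hj' h)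
  have hb := (Fintype.bijective_iff_injective_and_card _).2 ⟨hinj, by
    rw [Fintype.card_fin, ZMod.card]⟩
  obtain ⟨⟨j, hj⟩, hjx⟩ := hb.2 (x - (i : ZMod m))
  simp only at hjx
  rcases zmod2_cases e with rfl | rfl
  · exact ⟨j, by omega, by rw [gam_0 hj, hjx]; simp⟩
  · exact ⟨2 * m - 1 - j, by omega, by rw [gam_1 hj, hjx]; simp⟩

lemma gam_same {m i : ℕ} [NeZero m] (e : ZMod 2) (x y : ZMod m) (hxy : x ≠ y)
    (hs : x + y = 2 * (i : ZMod m) ∨ x + y = 2 * (i : ZMod m) + 1) : Adj (2 * m) (gam m i) (e, x) (e, y) := by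
  have hne : x - (i : ZMod m) ≠ y - i := fun h => hxy (by simpa using h)
  have hsum : (x - (i : ZMod m)) + (y - i) = 0 ∨ (x - (i : ZMod m)) + (y - i) = 1 := by
    rcases hs with hs | hs
    · left; linear_combination hs
    · right; linear_combination hs
  obtain ⟨j, hj, hj'⟩ := zz_adj _ _ hne hsum
  rcases zmod2_cases e with rfl | rfl
  · left
    refine ⟨j, by omega, ?_⟩
    rw [gam_0 (by omega), gam_0 (by omega)]
    rcases hj' with ⟨h1, h2⟩ | ⟨h1, h2⟩
    · left; rw [← h1, ← h2]; simp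
    · right; rw [← h1, ← h2]; simp
  · left
    refine ⟨2 * m - 1 - (j + 1), by omega, ?_⟩
    have e1 : 2 * m - 1 - (j + 1) + 1 = 2 * m - 1 - j := by omega
    rw [e1, gam_1 (by omega), gam_1 (by omega)]
    rcases hj' with ⟨h1, h2⟩ | ⟨h1, h2⟩
    · right; rw [← h1, ← h2]; simp
    · left; rw [← h1, ← h2]; simp

lemma gam_rung0 {m i : ℕ} [NeZero m] :
    Adj (2 * m) (gam m i) (0, (i : ZMod m)) (1, (i : ZMod m)) := by
  have hm : 0 < m := Nat.pos_of_ne_zero (NeZero.ne m)
  right; left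
  have h1 := gam_0 (m := m) (i := i) (j := 0) hm
  have h2 := gam_1 (m := m) (i := i) (j := 0) hm
  rw [Nat.sub_zero] at h2
  rw [h1, h2]
  simp [zz]

lemma gam_rung1 {m i : ℕ} [NeZero m] (x : ZMod m)
    (hx : x = (i : ZMod m) + ((zz (m - 1) : ℤ) : ZMod m)) :
    Adj (2 * m) (gam m i) (0, x) (1, x) := by
  have hm : 0 < m := Nat.pos_of_ne_zero (NeZero.ne m)
  left
  refine ⟨m - 1, by omega, Or.inl ?_⟩
  have h1 := gam_0 (m := m) (i := i) (j := m - 1) (by omega)
  have h2 := gam_1 (m := m) (i := i) (j := m - 1) (by omega)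
  have e1 : 2 * m - 1 - (m - 1) = m - 1 + 1 := by omega
  rw [e1] at h2
  rw [h1, h2, hx]
  exact ⟨rfl, rfl⟩

/-- the Hamiltonian cycle `Δ k` -/
def del (m k : ℕ) (j : ℕ) : ZMod 2 × ZMod m :=
  if j % 2 = 0 then (0, ((j / 2 : ℕ) : ZMod m)) else (1, ((j / 2 + 2 * k + 1 : ℕ) : ZMod m))

lemma del_0 (m k i : ℕ) : del m k (2 * i) = (0, (i : ZMod m)) := by
  have h1 : 2 * i % 2 = 0 := by omega
  have h2 : 2 * i / 2 = i := by omega
  rw [del, if_pos h1, h2]

lemma del_1 (m k i : ℕ) : del m k (2 * i + 1) = (1, (i : ZMod m) + 2 * k + 1) := by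
  have h1 : ¬ (2 * i + 1) % 2 = 0 := by omega
  have h2 : (2 * i + 1) / 2 = i := by omega
  rw [del, if_neg h1, h2]
  push_cast
  rfl

lemma del_surj {m k : ℕ} [NeZero m] (x : ZMod 2 × ZMod m) : ∃ j, j < 2 * m ∧ del m k j = x := by
  obtain ⟨e, x⟩ := x
  rcases zmod2_cases e with rfl | rfl
  · have hval : ((x.val : ℕ) : ZMod m) = x := ZMod.natCast_zmod_val _
    have hlt := ZMod.val_lt x
    exact ⟨2 * x.val, by omega, by rw [del_0, hval]⟩
  · obtain ⟨w, hw⟩ : ∃ w : ZMod m, w = x - 2 * (k : ZMod m) - 1 := ⟨_, rfl⟩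
    have hval : ((w.val : ℕ) : ZMod m) = w := ZMod.natCast_zmod_val _
    have hlt := ZMod.val_lt w
    exact ⟨2 * w.val + 1, by omega, by rw [del_1, hval, hw]; congr 1; ring⟩

lemma del_adj {m k : ℕ} [NeZero m] (x y : ZMod m) (h : y - x = 2 * (k : ZMod m) ∨ y - x = 2 * (k : ZMod m) + 1) :
    Adj (2 * m) (del m k) (0, x) (1, y) := by
  have hM : ((m : ℕ) : ZMod m) = 0 := ZMod.natCast_self m
  have hval : ((x.val : ℕ) : ZMod m) = x := ZMod.natCast_zmod_val _
  have hlt := ZMod.val_lt x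
  obtain ⟨r, hr⟩ : ∃ r, x.val = r := ⟨_, rfl⟩
  rw [hr] at hval hlt
  rcases h with h | h
  · rcases Nat.eq_zero_or_pos r with rfl | hr0
    · right; left
      obtain ⟨l, rfl⟩ : ∃ l, m = l + 1 := ⟨m - 1, by omega⟩
      have e1 : 2 * (l + 1) - 1 = 2 * l + 1 := by omega
      have h0 := del_0 (l + 1) k 0
      rw [Nat.mul_zero] at h0
      rw [e1, del_1, h0]
      refine ⟨by rw [hval], Prod.ext rfl ?_⟩
      simp only
      push_cast at hM hval
      linear_combination h - hval - hM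
    · left
      obtain ⟨l, rfl⟩ : ∃ l, r = l + 1 := ⟨r - 1, by omega⟩
      refine ⟨2 * l + 1, by omega, Or.inr ?_⟩
      rw [show 2 * l + 1 + 1 = 2 * (l + 1) by ring, del_0, del_1, hval]
      refine ⟨Prod.ext rfl ?_, rfl⟩
      simp only
      push_cast at hval
      linear_combination h - hval
  · left
    refine ⟨2 * r, by omega, Or.inl ?_⟩
    rw [del_0, del_1, hval]
    refine ⟨rfl, Prod.ext rfl ?_⟩
    simp only
    linear_combination h


/-- centred coordinates modulo `2 h + 1` -/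
lemma centred {h : ℕ} (x : ZMod (2 * h + 1)) :
    (∃ r : ℕ, r ≤ h ∧ x = (h : ZMod (2 * h + 1)) + r) ∨
      (∃ r : ℕ, 1 ≤ r ∧ r ≤ h ∧ x = (h : ZMod (2 * h + 1)) - r) := by
  rcases zmod_rep (x - (h : ZMod (2 * h + 1))) with ⟨r, hr, hx⟩ | ⟨r, hr1, hr, hx⟩
  · exact Or.inl ⟨r, by omega, by linear_combination hx⟩
  · exact Or.inr ⟨r, hr1, by omega, by linear_combination hx⟩

/-- forward half of the cycle `Θ` -/
def thA (h : ℕ) (j : ℕ) : ZMod 2 × ZMod (2 * h + 1) :=
  if j % 4 = 0 then (0, (h : ZMod (2 * h + 1)) - (2 * (j / 4) : ℕ))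
  else if j % 4 = 1 then (1, (h : ZMod (2 * h + 1)) - (2 * (j / 4) + 1 : ℕ))
  else if j % 4 = 2 then (1, (h : ZMod (2 * h + 1)) + (2 * (j / 4) + 1 : ℕ))
  else (0, (h : ZMod (2 * h + 1)) + (2 * (j / 4) + 2 : ℕ))

/-- backward half of the cycle `Θ` -/
def thB (h : ℕ) (j : ℕ) : ZMod 2 × ZMod (2 * h + 1) :=
  if j % 4 = 0 then (1, (h : ZMod (2 * h + 1)) + (2 * (j / 4) : ℕ))
  else if j % 4 = 1 then (0, (h : ZMod (2 * h + 1)) + (2 * (j / 4) + 1 : ℕ))
  else if j % 4 = 2 then (0, (h : ZMod (2 * h + 1)) - (2 * (j / 4) + 1 : ℕ))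
  else (1, (h : ZMod (2 * h + 1)) - (2 * (j / 4) + 2 : ℕ))

/-- the cycle `Θ` -/
def the (h : ℕ) (j : ℕ) : ZMod 2 × ZMod (2 * h + 1) :=
  if j ≤ 2 * h then thA h j else thB h (2 * (2 * h + 1) - 1 - j)

lemma thA_0 (h q : ℕ) : thA h (4 * q) = (0, (h : ZMod (2 * h + 1)) - (2 * q : ℕ)) := by
  rw [thA, if_pos (by omega), show 4 * q / 4 = q by omega]
lemma thA_1 (h q : ℕ) : thA h (4 * q + 1) = (1, (h : ZMod (2 * h + 1)) - (2 * q + 1 : ℕ)) := by
  rw [thA, if_neg (by omega), if_pos (by omega), show (4 * q + 1) / 4 = q by omega]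
lemma thA_2 (h q : ℕ) : thA h (4 * q + 2) = (1, (h : ZMod (2 * h + 1)) + (2 * q + 1 : ℕ)) := by
  rw [thA, if_neg (by omega), if_neg (by omega), if_pos (by omega),
    show (4 * q + 2) / 4 = q by omega]
lemma thA_3 (h q : ℕ) : thA h (4 * q + 3) = (0, (h : ZMod (2 * h + 1)) + (2 * q + 2 : ℕ)) := by
  rw [thA, if_neg (by omega), if_neg (by omega), if_neg (by omega),
    show (4 * q + 3) / 4 = q by omega]
lemma thB_0 (h q : ℕ) : thB h (4 * q) = (1, (h : ZMod (2 * h + 1)) + (2 * q : ℕ)) := by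
  rw [thB, if_pos (by omega), show 4 * q / 4 = q by omega]
lemma thB_1 (h q : ℕ) : thB h (4 * q + 1) = (0, (h : ZMod (2 * h + 1)) + (2 * q + 1 : ℕ)) := by
  rw [thB, if_neg (by omega), if_pos (by omega), show (4 * q + 1) / 4 = q by omega]
lemma thB_2 (h q : ℕ) : thB h (4 * q + 2) = (0, (h : ZMod (2 * h + 1)) - (2 * q + 1 : ℕ)) := by
  rw [thB, if_neg (by omega), if_neg (by omega), if_pos (by omega),
    show (4 * q + 2) / 4 = q by omega]
lemma thB_3 (h q : ℕ) : thB h (4 * q + 3) = (1, (h : ZMod (2 * h + 1)) - (2 * q + 2 : ℕ)) := by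
  rw [thB, if_neg (by omega), if_neg (by omega), if_neg (by omega),
    show (4 * q + 3) / 4 = q by omega]

lemma the_A {h j : ℕ} (hj : j ≤ 2 * h) : the h j = thA h j := by rw [the, if_pos hj]
lemma the_B {h j : ℕ} (hj : j ≤ 2 * h) : the h (2 * (2 * h + 1) - 1 - j) = thB h j := by
  rw [the, if_neg (by omega)]
  congr 1
  omega

/-- adjacency inside the forward half -/
lemma adjA {h j : ℕ} (hj : j + 1 ≤ 2 * h) :
    Adj (2 * (2 * h + 1)) (the h) (thA h j) (thA h (j + 1)) := by
  left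
  exact ⟨j, by omega, Or.inl ⟨(the_A (by omega)).symm, (the_A hj).symm⟩⟩

lemma adjB {h j : ℕ} (hj : j + 1 ≤ 2 * h) :
    Adj (2 * (2 * h + 1)) (the h) (thB h j) (thB h (j + 1)) := by
  left
  refine ⟨2 * (2 * h + 1) - 1 - (j + 1), by omega, Or.inr ⟨(the_B hj).symm, ?_⟩⟩
  have e1 : 2 * (2 * h + 1) - 1 - (j + 1) + 1 = 2 * (2 * h + 1) - 1 - j := by omega
  rw [e1, the_B (by omega)]

lemma adj00 {h : ℕ} : Adj (2 * (2 * h + 1)) (the h) (thA h 0) (thB h 0) := by
  right; left
  have h1 := the_B (h := h) (j := 0) (by omega)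
  rw [Nat.sub_zero] at h1
  exact ⟨(the_A (by omega)).symm, h1.symm⟩

lemma adjmid {h j : ℕ} (hj : j = 2 * h) : Adj (2 * (2 * h + 1)) (the h) (thA h j) (thB h j) := by
  subst hj
  left
  refine ⟨2 * h, by omega, Or.inl ⟨(the_A le_rfl).symm, ?_⟩⟩
  have h1 := the_B (h := h) (j := 2 * h) le_rfl
  rw [show 2 * (2 * h + 1) - 1 - 2 * h = 2 * h + 1 by omega] at h1
  exact h1.symm

lemma the_surj {h : ℕ} (x : ZMod 2 × ZMod (2 * h + 1)) :
    ∃ j, j < 2 * (2 * h + 1) ∧ the h j = x := by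
  obtain ⟨e, x⟩ := x
  have hA : ∀ j, j ≤ 2 * h → thA h j = (e, x) → ∃ j, j < 2 * (2 * h + 1) ∧ the h j = (e, x) :=
    fun j hj h' => ⟨j, by omega, by rw [the_A hj, h']⟩
  have hB : ∀ j, j ≤ 2 * h → thB h j = (e, x) → ∃ j, j < 2 * (2 * h + 1) ∧ the h j = (e, x) :=
    fun j hj h' => ⟨2 * (2 * h + 1) - 1 - j, by omega, by rw [the_B hj, h']⟩
  rcases zmod2_cases e with rfl | rfl
  · rcases centred x with ⟨r, hr, hx⟩ | ⟨r, hr1, hr, hx⟩
    · rcases Nat.even_or_odd' r with ⟨q, rfl | rfl⟩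
      · rcases Nat.eq_zero_or_pos q with rfl | hq
        · exact hA (4 * 0) (by omega) (by rw [thA_0, hx]; simp)
        · obtain ⟨p, rfl⟩ : ∃ p, q = p + 1 := ⟨q - 1, by omega⟩
          exact hA (4 * p + 3) (by omega) (by rw [thA_3, hx]; rfl)
      · exact hB (4 * q + 1) (by omega) (by rw [thB_1, hx])
    · rcases Nat.even_or_odd' r with ⟨q, rfl | rfl⟩
      · exact hA (4 * q) (by omega) (by rw [thA_0, hx])
      · exact hB (4 * q + 2) (by omega) (by rw [thB_2, hx])
  · rcases centred x with ⟨r, hr, hx⟩ | ⟨r, hr1, hr, hx⟩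
    · rcases Nat.even_or_odd' r with ⟨q, rfl | rfl⟩
      · exact hB (4 * q) (by omega) (by rw [thB_0, hx])
      · exact hA (4 * q + 2) (by omega) (by rw [thA_2, hx])
    · rcases Nat.even_or_odd' r with ⟨q, rfl | rfl⟩
      · obtain ⟨p, rfl⟩ : ∃ p, q = p + 1 := ⟨q - 1, by omega⟩
        exact hB (4 * p + 3) (by omega) (by rw [thB_3, hx]; rfl)
      · exact hA (4 * q + 1) (by omega) (by rw [thA_1, hx])

lemma the_rung {h : ℕ} : Adj (2 * (2 * h + 1)) (the h) (0, (h : ZMod (2 * h + 1))) (1, h) := by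
  have h1 := adj00 (h := h)
  have h2 := thA_0 h 0
  have h3 := thB_0 h 0
  simp only [Nat.mul_zero, Nat.cast_zero, sub_zero, add_zero] at h2 h3
  rw [h2, h3] at h1
  exact h1

/-- the edges `(e, h + r), (e, h - r)` -/
lemma the_same {h : ℕ} (e : ZMod 2) (r : ℕ) (hr1 : 1 ≤ r) (hr : r ≤ h) :
    Adj (2 * (2 * h + 1)) (the h) (e, (h : ZMod (2 * h + 1)) + r) (e, (h : ZMod (2 * h + 1)) - r) := by
  rcases zmod2_cases e with rfl | rfl
  · rcases Nat.even_or_odd' r with ⟨q, rfl | rfl⟩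
    · obtain ⟨p, rfl⟩ : ∃ p, q = p + 1 := ⟨q - 1, by omega⟩
      have h1 := adjA (h := h) (j := 4 * p + 3) (by omega)
      rw [thA_3, show 4 * p + 3 + 1 = 4 * (p + 1) by ring, thA_0] at h1
      exact h1
    · have h1 := adjB (h := h) (j := 4 * q + 1) (by omega)
      rw [thB_1, show 4 * q + 1 + 1 = 4 * q + 2 by ring, thB_2] at h1
      exact h1
  · rcases Nat.even_or_odd' r with ⟨q, rfl | rfl⟩
    · obtain ⟨p, rfl⟩ : ∃ p, q = p + 1 := ⟨q - 1, by omega⟩
      have h1 := adjB (h := h) (j := 4 * p + 3) (by omega)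
      rw [thB_3, show 4 * p + 3 + 1 = 4 * (p + 1) by ring, thB_0] at h1
      exact h1.symm
    · have h1 := adjA (h := h) (j := 4 * q + 1) (by omega)
      rw [thA_1, show 4 * q + 1 + 1 = 4 * q + 2 by ring, thA_2] at h1
      exact h1.symm

/-- the edges `(0, x), (1, x - 1)` -/
lemma the_cross {h : ℕ} (x : ZMod (2 * h + 1)) :
    Adj (2 * (2 * h + 1)) (the h) (0, x) (1, x - 1) := by
  have hM : ((2 * h + 1 : ℕ) : ZMod (2 * h + 1)) = 0 := ZMod.natCast_self _
  push_cast at hM
  rcases centred x with ⟨r, hr, hx⟩ | ⟨r, hr1, hr, hx⟩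
  · rcases Nat.eq_zero_or_pos r with rfl | hr0
    · rcases Nat.eq_zero_or_pos h with rfl | hh
      · have h1 := the_rung (h := 0)
        have e1 : (0, x) = ((0, ((0 : ℕ) : ZMod (2 * 0 + 1))) : ZMod 2 × ZMod (2 * 0 + 1)) :=
          Prod.ext rfl (Subsingleton.elim (α := ZMod 1) _ _)
        have e2 : (1, x - 1) = ((1, ((0 : ℕ) : ZMod (2 * 0 + 1))) : ZMod 2 × ZMod (2 * 0 + 1)) :=
          Prod.ext rfl (Subsingleton.elim (α := ZMod 1) _ _)
        rw [e1, e2]
        exact h1
      · have h1 := adjA (h := h) (j := 4 * 0) (by omega)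
        rw [thA_0, thA_1] at h1
        convert h1 using 2
        · rw [hx]; simp
        · rw [hx]; simp
    · rcases Nat.even_or_odd' r with ⟨q, rfl | rfl⟩
      · obtain ⟨p, rfl⟩ : ∃ p, q = p + 1 := ⟨q - 1, by omega⟩
        have h1 := (adjA (h := h) (j := 4 * p + 2) (by omega)).symm
        rw [show 4 * p + 2 + 1 = 4 * p + 3 by ring, thA_3, thA_2] at h1
        convert h1 using 2 <;> (rw [hx]; push_cast; ring)
      · have h1 := (adjB (h := h) (j := 4 * q) (by omega)).symm
        rw [thB_1, thB_0] at h1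
        convert h1 using 2 <;> (rw [hx]; push_cast; ring)
  · by_cases hrh : r = h
    · -- boundary
      subst hrh
      rcases Nat.even_or_odd' r with ⟨q, hq | hq⟩
      · have h1 := adjmid (h := r) (j := 4 * q) (by omega)
        rw [thA_0, thB_0, ← hq] at h1
        have e1 : ((0 : ZMod 2), x) = (0, (r : ZMod (2 * r + 1)) - r) := Prod.ext rfl hx
        have e2 : ((1 : ZMod 2), x - 1) = (1, (r : ZMod (2 * r + 1)) + r) :=
          Prod.ext rfl (by simp only; rw [hx]; linear_combination -hM)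
        rw [e1, e2]
        exact h1
      · have h1 := (adjmid (h := r) (j := 4 * q + 2) (by omega)).symm
        rw [thA_2, thB_2, ← hq] at h1
        have e1 : ((0 : ZMod 2), x) = (0, (r : ZMod (2 * r + 1)) - r) := Prod.ext rfl hx
        have e2 : ((1 : ZMod 2), x - 1) = (1, (r : ZMod (2 * r + 1)) + r) :=
          Prod.ext rfl (by simp only; rw [hx]; linear_combination -hM)
        rw [e1, e2]
        exact h1
    · rcases Nat.even_or_odd' r with ⟨q, rfl | rfl⟩
      · have h1 := adjA (h := h) (j := 4 * q) (by omega)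
        rw [thA_0, thA_1] at h1
        convert h1 using 2 <;> (rw [hx]; push_cast; ring)
      · have h1 := adjB (h := h) (j := 4 * q + 2) (by omega)
        rw [show 4 * q + 2 + 1 = 4 * q + 3 by ring, thB_2, thB_3] at h1
        convert h1 using 2 <;> (rw [hx]; push_cast; ring)

/-! ### Even orders: assembling -/

lemma covers_even_even {h : ℕ} (hh : 2 ≤ h) :
    Covers (ZMod 2 × ZMod (2 * h)) (2 * (2 * h)) (2 * (2 * h) - 1) (fun _ _ _ => True) := by
  have : NeZero (2 * h) := ⟨by omega⟩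
  have hcard : Fintype.card (ZMod 2 × ZMod (2 * h)) = 2 * (2 * h) := by
    rw [Fintype.card_prod, ZMod.card, ZMod.card]
  have hM : ((2 * h : ℕ) : ZMod (2 * h)) = 0 := ZMod.natCast_self _
  have c1 := Covers.iUnion (V := ZMod 2 × ZMod (2 * h)) (n := 2 * (2 * h)) (k := 2) h
    (T := fun i a _ c => Adj (2 * (2 * h)) (gam (2 * h) i) a c)
    (fun i _ => covers_seq (by omega) hcard _ gam_surj)
  have c2 := Covers.iUnion (V := ZMod 2 × ZMod (2 * h)) (n := 2 * (2 * h)) (k := 2) (h - 2)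
    (T := fun i a _ c => Adj (2 * (2 * h)) (del (2 * h) (i + 2)) a c)
    (fun i _ => covers_seq (by omega) hcard _ del_surj)
  have c3 := covers_H_even hh
  have hnum : h * 2 + (h - 2) * 2 + 3 = 2 * (2 * h) - 1 := by omega
  rw [← hnum]
  refine ((c1.add c2).add c3).mono ?_
  have cross : ∀ x y : ZMod (2 * h), (∃ i < h, Adj (2 * (2 * h)) (gam (2 * h) i) (0, x) (1, y)) ∨
      (∃ i < h - 2, Adj (2 * (2 * h)) (del (2 * h) (i + 2)) (0, x) (1, y)) ∨
      (∃ t : ℕ, 1 ≤ t ∧ t ≤ 3 ∧ y - x = t) := by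
    intro x y
    have hval : (((y - x).val : ℕ) : ZMod (2 * h)) = y - x := ZMod.natCast_zmod_val _
    have hlt := ZMod.val_lt (y - x)
    obtain ⟨t, ht⟩ : ∃ t, (y - x).val = t := ⟨_, rfl⟩
    rw [ht] at hval hlt
    obtain rfl | ht3 | ht4 : t = 0 ∨ (1 ≤ t ∧ t ≤ 3) ∨ 4 ≤ t := by omega
    · left
      have hxy : y = x := by
        have := hval; simp only [Nat.cast_zero] at this; linear_combination -this
      subst hxy
      have hval2 : ((y.val : ℕ) : ZMod (2 * h)) = y := ZMod.natCast_zmod_val _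
      have hlt2 := ZMod.val_lt y
      by_cases hc : y.val < h
      · refine ⟨y.val, hc, ?_⟩
        have := gam_rung0 (m := 2 * h) (i := y.val)
        rw [hval2] at this
        exact this
      · refine ⟨y.val - h, by omega, gam_rung1 y ?_⟩
        have e1 : 2 * h - 1 = 2 * (h - 1) + 1 := by omega
        rw [e1, zz_odd, Nat.cast_sub (by omega), hval2]
        have e2 : ((h - 1 : ℕ) : ℤ) + 1 = (h : ℤ) := by omega
        rw [e2]
        push_cast
        ring
    · right; right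
      exact ⟨t, ht3.1, ht3.2, hval.symm⟩
    · right; left
      rcases Nat.even_or_odd' t with ⟨k, rfl | rfl⟩
      · obtain ⟨k, rfl⟩ : ∃ k', k = k' + 2 := ⟨k - 2, by omega⟩
        refine ⟨k, by omega, del_adj x y (Or.inl ?_)⟩
        rw [← hval]; push_cast; ring
      · obtain ⟨k, rfl⟩ : ∃ k', k = k' + 2 := ⟨k - 2, by omega⟩
        refine ⟨k, by omega, del_adj x y (Or.inr ?_)⟩
        rw [← hval]; push_cast; ring
  have same : ∀ e : ZMod 2, ∀ x y : ZMod (2 * h), x ≠ y →
      ∃ i < h, Adj (2 * (2 * h)) (gam (2 * h) i) (e, x) (e, y) := by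
    intro e x y hxy
    have hval : (((x + y).val : ℕ) : ZMod (2 * h)) = x + y := ZMod.natCast_zmod_val _
    have hlt := ZMod.val_lt (x + y)
    obtain ⟨i, hi⟩ := Nat.even_or_odd' (x + y).val
    refine ⟨i, by omega, gam_same e x y hxy ?_⟩
    rcases hi with hi | hi
    · left; rw [← hval, hi]; push_cast; ring
    · right; rw [← hval, hi]; push_cast; ring
  rintro ⟨a1, x⟩ - ⟨c1, y⟩ - - hac -
  rcases zmod2_cases a1 with rfl | rfl <;> rcases zmod2_cases c1 with rfl | rfl
  · exact Or.inl (Or.inl (same 0 x y fun h => hac (by rw [h])))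
  · rcases cross x y with h | h | ⟨t, ht1, ht3, ht⟩
    · exact Or.inl (Or.inl h)
    · exact Or.inl (Or.inr h)
    · exact Or.inr ⟨t, ht1, ht3, Or.inl ⟨rfl, rfl, ht⟩⟩
  · rcases cross y x with ⟨i, hi, h⟩ | ⟨i, hi, h⟩ | ⟨t, ht1, ht3, ht⟩
    · exact Or.inl (Or.inl ⟨i, hi, h.symm⟩)
    · exact Or.inl (Or.inr ⟨i, hi, h.symm⟩)
    · exact Or.inr ⟨t, ht1, ht3, Or.inr ⟨rfl, rfl, ht⟩⟩
  · exact Or.inl (Or.inl (same 1 x y fun h => hac (by rw [h])))

lemma covers_even_odd {h : ℕ} (hh : 2 ≤ h) :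
    Covers (ZMod 2 × ZMod (2 * h + 1)) (2 * (2 * h + 1)) (2 * (2 * h + 1) - 1)
      (fun _ _ _ => True) := by
  have hcard : Fintype.card (ZMod 2 × ZMod (2 * h + 1)) = 2 * (2 * h + 1) := by
    rw [Fintype.card_prod, ZMod.card, ZMod.card]
  have hM : ((2 * h + 1 : ℕ) : ZMod (2 * h + 1)) = 0 := ZMod.natCast_self _
  have c1 := Covers.iUnion (V := ZMod 2 × ZMod (2 * h + 1)) (n := 2 * (2 * h + 1)) (k := 2) h
    (T := fun i a _ c => Adj (2 * (2 * h + 1)) (gam (2 * h + 1) i) a c)
    (fun i _ => covers_seq (by omega) hcard _ gam_surj)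
  have c2 := Covers.iUnion (V := ZMod 2 × ZMod (2 * h + 1)) (n := 2 * (2 * h + 1)) (k := 2) (h - 2)
    (T := fun i a _ c => Adj (2 * (2 * h + 1)) (del (2 * h + 1) (i + 2)) a c)
    (fun i _ => covers_seq (by omega) hcard _ del_surj)
  have c3 := covers_H_odd (h := h)
  have c4 := covers_seq (by omega) hcard _ (the_surj (h := h))
  have hnum : h * 2 + (h - 2) * 2 + 3 + 2 = 2 * (2 * h + 1) - 1 := by omega
  rw [← hnum]
  refine (((c1.add c2).add c3).add c4).mono ?_
  have cross : ∀ x y : ZMod (2 * h + 1),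
      (∃ i < h, Adj (2 * (2 * h + 1)) (gam (2 * h + 1) i) (0, x) (1, y)) ∨
      (∃ i < h - 2, Adj (2 * (2 * h + 1)) (del (2 * h + 1) (i + 2)) (0, x) (1, y)) ∨
      (∃ t : ℕ, 1 ≤ t ∧ t ≤ 3 ∧ y - x = t) ∨ Adj (2 * (2 * h + 1)) (the h) (0, x) (1, y) := by
    intro x y
    have hval : (((y - x).val : ℕ) : ZMod (2 * h + 1)) = y - x := ZMod.natCast_zmod_val _
    have hlt := ZMod.val_lt (y - x)
    obtain ⟨t, ht⟩ : ∃ t, (y - x).val = t := ⟨_, rfl⟩
    rw [ht] at hval hlt
    obtain rfl | ht3 | ht4 | ht5 : t = 0 ∨ (1 ≤ t ∧ t ≤ 3) ∨ (4 ≤ t ∧ t < 2 * h) ∨ t = 2 * h := by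
      omega
    · have hxy : y = x := by
        have := hval; simp only [Nat.cast_zero] at this; linear_combination -this
      subst hxy
      have hval2 : ((y.val : ℕ) : ZMod (2 * h + 1)) = y := ZMod.natCast_zmod_val _
      have hlt2 := ZMod.val_lt y
      obtain hc | hc | hc : y.val < h ∨ y.val = h ∨ h < y.val := by omega
      · left
        refine ⟨y.val, hc, ?_⟩
        have := gam_rung0 (m := 2 * h + 1) (i := y.val)
        rw [hval2] at this
        exact this
      · right; right; right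
        have hy : y = (h : ZMod (2 * h + 1)) := by rw [← hval2, hc]
        rw [hy]
        exact the_rung
      · left
        refine ⟨y.val - (h + 1), by omega, gam_rung1 y ?_⟩
        have e1 : 2 * h + 1 - 1 = 2 * h := by omega
        rw [e1, zz_even, Nat.cast_sub (by omega), hval2]
        push_cast at hM ⊢
        linear_combination hM
    · right; right; left
      exact ⟨t, ht3.1, ht3.2, hval.symm⟩
    · right; left
      rcases Nat.even_or_odd' t with ⟨k, rfl | rfl⟩
      · obtain ⟨k, rfl⟩ : ∃ k', k = k' + 2 := ⟨k - 2, by omega⟩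
        refine ⟨k, by omega, del_adj x y (Or.inl ?_)⟩
        rw [← hval]; push_cast; ring
      · obtain ⟨k, rfl⟩ : ∃ k', k = k' + 2 := ⟨k - 2, by omega⟩
        refine ⟨k, by omega, del_adj x y (Or.inr ?_)⟩
        rw [← hval]; push_cast; ring
    · right; right; right
      have hy : y = x - 1 := by
        rw [ht5] at hval
        push_cast at hval hM
        linear_combination hM - hval
      rw [hy]
      exact the_cross x
  have same : ∀ e : ZMod 2, ∀ x y : ZMod (2 * h + 1), x ≠ y →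
      (∃ i < h, Adj (2 * (2 * h + 1)) (gam (2 * h + 1) i) (e, x) (e, y)) ∨
        Adj (2 * (2 * h + 1)) (the h) (e, x) (e, y) := by
    intro e x y hxy
    have hval : (((x + y).val : ℕ) : ZMod (2 * h + 1)) = x + y := ZMod.natCast_zmod_val _
    have hlt := ZMod.val_lt (x + y)
    obtain ⟨i, hi⟩ := Nat.even_or_odd' (x + y).val
    by_cases hih : i < h
    · left
      refine ⟨i, hih, gam_same e x y hxy ?_⟩
      rcases hi with hi | hi
      · left; rw [← hval, hi]; push_cast; ring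
      · right; rw [← hval, hi]; push_cast; ring
    · right
      have h2 : (x + y).val = 2 * h := by omega
      rw [h2] at hval
      rcases centred x with ⟨r, hr, hx⟩ | ⟨r, hr1, hr, hx⟩
      · have hy : y = (h : ZMod (2 * h + 1)) - r := by
          push_cast at hval; linear_combination -hval - hx
        have hr1 : 1 ≤ r := by
          rcases Nat.eq_zero_or_pos r with rfl | h'
          · exact absurd (by rw [hx, hy]; simp) hxy
          · exact h'
        rw [hx, hy]
        exact the_same e r hr1 hr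
      · have hy : y = (h : ZMod (2 * h + 1)) + r := by
          push_cast at hval; linear_combination -hval - hx
        rw [hx, hy]
        exact (the_same e r hr1 hr).symm
  rintro ⟨a1, x⟩ - ⟨c1, y⟩ - - hac -
  rcases zmod2_cases a1 with rfl | rfl <;> rcases zmod2_cases c1 with rfl | rfl
  · rcases same 0 x y fun h => hac (by rw [h]) with h | h
    · exact Or.inl (Or.inl (Or.inl h))
    · exact Or.inr h
  · rcases cross x y with h | h | ⟨t, ht1, ht3, ht⟩ | h
    · exact Or.inl (Or.inl (Or.inl h))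
    · exact Or.inl (Or.inl (Or.inr h))
    · exact Or.inl (Or.inr ⟨t, ht1, ht3, Or.inl ⟨rfl, rfl, ht⟩⟩)
    · exact Or.inr h
  · rcases cross y x with ⟨i, hi, h⟩ | ⟨i, hi, h⟩ | ⟨t, ht1, ht3, ht⟩ | h
    · exact Or.inl (Or.inl (Or.inl ⟨i, hi, h.symm⟩))
    · exact Or.inl (Or.inl (Or.inr ⟨i, hi, h.symm⟩))
    · exact Or.inl (Or.inr ⟨t, ht1, ht3, Or.inr ⟨rfl, rfl, ht⟩⟩)
    · exact Or.inr h.symm
  · rcases same 1 x y fun h => hac (by rw [h]) with h | h
    · exact Or.inl (Or.inl (Or.inl h))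
    · exact Or.inr h

/-! ### Orders `4` and `6` -/

lemma covers_table {V : Type} [AddCommGroup V] {n k : ℕ} (X : Fin k → ℕ → V)
    (h1 : ∀ q, ∀ i j : Fin n, X q i = X q j → i = j)
    (h2 : ∀ d s : V, d ≠ 0 → s ≠ 0 → d ≠ s → ∃ q, ∃ j : Fin (n - 2),
      X q (j + 1) = X q j + d ∧ X q (j + 2) = X q j + s) :
    Covers V n k (fun _ _ _ => True) := by
  refine ⟨fun q v j => v + X q j, ?_, ?_, ?_⟩
  · intro q v i j hi hj h
    have := h1 q ⟨i, hi⟩ ⟨j, hj⟩ (add_left_cancel h)
    simpa using this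
  · intro q j hj v v' h
    exact add_right_cancel h
  · intro a b c hab hbc hac _
    obtain ⟨q, j, hd, hs⟩ := h2 (b - a) (c - a) (fun h => hab (sub_eq_zero.1 h).symm)
      (fun h => hac (sub_eq_zero.1 h).symm) (fun h => hbc (sub_left_injective h))
    refine ⟨q, a - X q j, j, by have := j.2; omega, by simp, ?_, ?_⟩
    · simp only [hd]; abel
    · simp only [hs]; abel

/-- base rows of order `4` over `ZMod 2 × ZMod 2` -/
def tab4 (q : Fin 3) (j : ℕ) : ZMod 2 × ZMod 2 :=
  ((([[(0, 0), (1, 0), (0, 1), (1, 1)], [(0, 0), (0, 1), (1, 0), (1, 1)],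
    [(0, 0), (0, 1), (1, 1), (1, 0)]] : List (List (ZMod 2 × ZMod 2))).getD q []).getD j (0, 0))

/-- base rows of order `6` over `ZMod 6` -/
def tab6 (q : Fin 5) (j : ℕ) : ZMod 6 :=
  (([[0, 1, 2, 5, 3, 4], [0, 2, 1, 4, 5, 3], [0, 4, 3, 1, 5, 2], [0, 5, 1, 4, 3, 2],
    [0, 3, 5, 1, 2, 4]] : List (List (ZMod 6))).getD q []).getD j 0

lemma covers_four : Covers (ZMod 2 × ZMod 2) 4 3 (fun _ _ _ => True) :=
  covers_table tab4 (by decide) (by decide)

lemma covers_six : Covers (ZMod 6) 6 5 (fun _ _ _ => True) :=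
  covers_table tab6 (by decide) (by decide)

theorem main (n : ℕ) (hn : 3 ≤ n) (S : Type u) [Fintype S] (hS : Fintype.card S = n) :
    ∃ L : Fin (n - 1) → Fin n → Fin n → S, TriadBalanced L := by
  rcases Nat.even_or_odd' n with ⟨m, rfl | rfl⟩
  · obtain rfl | rfl | hm : m = 2 ∨ m = 3 ∨ 4 ≤ m := by omega
    · exact balanced_of_covers (V := ZMod 2 × ZMod 2) (by decide) covers_four hS
    · exact balanced_of_covers (V := ZMod 6) (by rw [ZMod.card]) covers_six hS
    · rcases Nat.even_or_odd' m with ⟨h, rfl | rfl⟩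
      · have : NeZero (2 * h) := ⟨by omega⟩
        exact balanced_of_covers (V := ZMod 2 × ZMod (2 * h))
          (by rw [Fintype.card_prod, ZMod.card, ZMod.card]) (covers_even_even (by omega)) hS
      · exact balanced_of_covers (V := ZMod 2 × ZMod (2 * h + 1))
          (by rw [Fintype.card_prod, ZMod.card, ZMod.card]) (covers_even_odd (by omega)) hS
  · have : NeZero (2 * m) := ⟨by omega⟩
    refine balanced_of_covers (V := Option (ZMod (2 * m))) ?_ ?_ hS
    · rw [Fintype.card_option, ZMod.card]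
    · exact covers_odd m (by omega)

end Pool.Agent.Lib.MP_0f2167_co
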